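import Mathlib

set_option autoImplicit false

/-!
# Finitary closure systems and an induction principle
-/

open Set Cardinal

namespace Pool.Agent.H902R2.FinCl

universe u

variable {T : Type u} (op : Finset T → Set T)

/-- `N` is closed under the operations. -/
def Cl (N : Set T) : Prop := ∀ F : Finset T, (F : Set T) ⊆ N → op F ⊆ N

/-- one step -/
def step (S : Set T) : Set T := S ∪ ⋃ F : {F : Finset T // (F : Set T) ⊆ S}, op F.1

/-- iterate -/
def it (S : Set T) : ℕ → Set T
  | 0 => S
  | n + 1 => step op (it S n)

/-- the closure -/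
def cls (S : Set T) : Set T := ⋃ n, it op S n

theorem subset_step (S : Set T) : S ⊆ step op S := subset_union_left

theorem it_mono_succ (S : Set T) (n : ℕ) : it op S n ⊆ it op S (n + 1) := subset_step op _

theorem it_mono (S : Set T) : Monotone (it op S) := monotone_nat_of_le_succ (it_mono_succ op S)

theorem subset_cls (S : Set T) : S ⊆ cls op S := subset_iUnion (it op S) 0

theorem finset_subset_directed {ι : Type*} [Nonempty ι] {c : ι → Set T} (hc : Directed (· ⊆ ·) c)
    (F : Finset T) (hF : (F : Set T) ⊆ ⋃ i, c i) : ∃ i, (F : Set T) ⊆ c i := by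
  classical
  induction F using Finset.induction_on with
  | empty => exact ⟨Classical.arbitrary ι, by simp⟩
  | insert a F _ ih =>
    rw [Finset.coe_insert, insert_subset_iff] at hF
    obtain ⟨i, hi⟩ := ih hF.2
    obtain ⟨j, hj⟩ := mem_iUnion.mp hF.1
    obtain ⟨k, hik, hjk⟩ := hc i j
    refine ⟨k, ?_⟩
    rw [Finset.coe_insert, insert_subset_iff]
    exact ⟨hjk hj, hi.trans hik⟩

theorem cl_iUnion_directed {ι : Type*} [Nonempty ι] {c : ι → Set T} (hc : Directed (· ⊆ ·) c)
    (h : ∀ i, Cl op (c i)) : Cl op (⋃ i, c i) := by
  intro F hF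
  obtain ⟨i, hi⟩ := finset_subset_directed hc F hF
  exact (h i F hi).trans (subset_iUnion c i)

theorem cl_cls (S : Set T) : Cl op (cls op S) := by
  intro F hF
  have hd : Directed (· ⊆ ·) (it op S) := (it_mono op S).directed_le
  obtain ⟨n, hn⟩ := finset_subset_directed hd F hF
  refine subset_trans ?_ (subset_iUnion (it op S) (n + 1))
  exact subset_union_of_subset_right
    (subset_iUnion (fun F : {F : Finset T // (F : Set T) ⊆ it op S n} => op F.1) ⟨F, hn⟩) _

theorem cls_subset {S N : Set T} (hS : S ⊆ N) (hN : Cl op N) : cls op S ⊆ N := by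
  apply iUnion_subset
  intro n
  induction n with
  | zero => exact hS
  | succ n ih =>
    apply union_subset ih
    apply iUnion_subset
    rintro ⟨F, hF⟩
    exact hN F (hF.trans ih)

theorem cls_mono {S S' : Set T} (h : S ⊆ S') : cls op S ⊆ cls op S' :=
  cls_subset op (h.trans (subset_cls op S')) (cl_cls op S')

theorem mk_step_le (hop : ∀ F, (op F).Countable) (S : Set T) : #(step op S) ≤ max #S ℵ₀ := by
  have h1 : #{F : Finset T // (F : Set T) ⊆ S} ≤ max #S ℵ₀ := by
    classical
    let e : {F : Finset T // (F : Set T) ⊆ S} → Finset S := fun F => F.1.subtype (· ∈ S)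
    have he : Function.Injective e := by
      rintro ⟨F, hF⟩ ⟨G, hG⟩ h
      apply Subtype.ext
      have h2 : (F.subtype (· ∈ S)).map (Function.Embedding.subtype _) =
          (G.subtype (· ∈ S)).map (Function.Embedding.subtype _) := congrArg _ h
      rwa [Finset.subtype_map_of_mem (fun x hx => hF hx),
        Finset.subtype_map_of_mem (fun x hx => hG hx)] at h2
    refine (mk_le_of_injective he).trans ?_
    rcases lt_or_ge #S ℵ₀ with hfin | hinf
    · have : Finite S := lt_aleph0_iff_finite.mp hfin
      exact (mk_le_aleph0 (α := Finset S)).trans (le_max_right _ _)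
    · have : Infinite S := infinite_iff.mpr hinf
      rw [mk_finset_of_infinite]
      exact le_max_left _ _
  calc #(step op S) ≤ #S + #(⋃ F : {F : Finset T // (F : Set T) ⊆ S}, op F.1) := mk_union_le _ _
    _ ≤ max #S ℵ₀ + max #S ℵ₀ := by
        apply add_le_add (le_max_left _ _)
        refine (mk_iUnion_le _).trans ?_
        calc #{F : Finset T // (F : Set T) ⊆ S} * (⨆ F : {F : Finset T // (F : Set T) ⊆ S},
                #(op F.1)) ≤ max #S ℵ₀ * ℵ₀ := by
              apply mul_le_mul' h1
              apply ciSup_le'
              intro F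
              exact (hop F.1).le_aleph0
          _ = max #S ℵ₀ := by
              rw [mul_eq_left (le_max_right _ _) (le_max_right _ _) aleph0_ne_zero]
    _ = max #S ℵ₀ := add_eq_self (le_max_right _ _)

theorem mk_cls_le (hop : ∀ F, (op F).Countable) (S : Set T) : #(cls op S) ≤ max #S ℵ₀ := by
  have h : ∀ n, #(it op S n) ≤ max #S ℵ₀ := by
    intro n
    induction n with
    | zero => exact le_max_left _ _
    | succ n ih =>
      refine (mk_step_le op hop _).trans ?_
      exact max_le ih (le_max_right _ _)
  unfold cls
  have := mk_iUnion_le_lift (f := it op S)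
  rw [lift_uzero] at this
  refine this.trans ?_
  rw [mk_nat, lift_aleph0]
  calc ℵ₀ * ⨆ i, lift.{0, u} #(it op S i) ≤ max #S ℵ₀ * max #S ℵ₀ :=
        mul_le_mul' (le_max_right _ _) (ciSup_le' fun i => by rw [lift_uzero]; exact h i)
    _ = max #S ℵ₀ := mul_eq_self (le_max_right _ _)

/-- Induction principle: a property of closed sets that holds for the countable ones, and for the
unions of well-ordered chains of closed sets having it, holds for all. -/
theorem closed_induction (hop : ∀ F, (op F).Countable) (P : Set T → Prop)
    (hcount : ∀ N, Cl op N → N.Countable → P N)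
    (hchain : ∀ (ι : Type u) [LinearOrder ι] [WellFoundedLT ι] (c : ι → Set T), Nonempty ι →
      (∀ i, Cl op (c i)) → Monotone c → (∀ i, P (c i)) → P (⋃ i, c i)) :
    ∀ N, Cl op N → P N := by
  have key : ∀ κ : Cardinal.{u}, ∀ N : Set T, Cl op N → #N = κ → P N := by
    intro κ
    induction κ using WellFoundedLT.induction with
    | ind κ ih =>
    intro N hN hκ
    rcases le_or_gt κ ℵ₀ with hle | hgt
    · apply hcount N hN
      rw [← Cardinal.le_aleph0_iff_set_countable, hκ]
      exact hle
    · have hcard : #(κ.ord.ToType) = #N := by rw [mk_ord_toType, hκ]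
      obtain ⟨t⟩ := Cardinal.eq.mp hcard
      have hne : Nonempty κ.ord.ToType := by
        rw [← mk_ne_zero_iff, mk_ord_toType]
        exact (aleph0_pos.trans hgt).ne'
      let c : κ.ord.ToType → Set T := fun i => cls op ((fun j => (t j : T)) '' Iic i)
      have hcN : ∀ i, c i ⊆ N := by
        intro i
        apply cls_subset op _ hN
        rintro _ ⟨j, -, rfl⟩
        exact (t j).2
      have hU : ⋃ i, c i = N := by
        apply Subset.antisymm (iUnion_subset hcN)
        intro x hx
        rw [mem_iUnion]
        refine ⟨t.symm ⟨x, hx⟩, subset_cls op _ ⟨t.symm ⟨x, hx⟩, self_mem_Iic, ?_⟩⟩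
        simp
      rw [← hU]
      apply hchain κ.ord.ToType c hne (fun i => cl_cls op _)
      · intro i j hij
        exact cls_mono op (image_mono (Iic_subset_Iic.mpr hij))
      · intro i
        apply ih #(c i) _ (c i) (cl_cls op _) rfl
        refine (mk_cls_le op hop _).trans_lt ?_
        apply max_lt _ hgt
        refine mk_image_le.trans_lt ?_
        have := mk_Iic_lt i (by simp) (by rw [mk_ord_toType]; exact hgt.le)
        rwa [mk_ord_toType] at this
  exact fun N hN => key _ N hN rfl

end Pool.Agent.H902R2.FinCl
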