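import Mathlib

set_option autoImplicit false

/-!
# Weakly sigma-point-finite families, weakly sigma-metacompact spaces and Lindelof Sigma spaces
-/

open Set

namespace Pool.Agent.H902R2.Wsm

universe u

/-- A family `𝒜` of subsets of `Y` is weakly sigma-point-finite if it is a countable union of
subfamilies `F n` such that, for every point `y`, the whole family `𝒜` is the union of those `F n`
only finitely many members of which contain `y`. -/
def WeaklySigmaPointFinite {Y : Type u} (𝒜 : Set (Set Y)) : Prop :=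
  ∃ F : ℕ → Set (Set Y), 𝒜 = ⋃ n, F n ∧
    ∀ y : Y, 𝒜 = ⋃ n ∈ {n : ℕ | {s | s ∈ F n ∧ y ∈ s}.Finite}, F n

/-- A space is weakly sigma-metacompact if every open cover of it has a weakly sigma-point-finite
open refinement (which is again a cover). -/
def WeaklySigmaMetacompact (Y : Type u) [TopologicalSpace Y] : Prop :=
  ∀ 𝒰 : Set (Set Y), (∀ U ∈ 𝒰, IsOpen U) → ⋃₀ 𝒰 = univ →
    ∃ 𝒱 : Set (Set Y), (∀ V ∈ 𝒱, IsOpen V) ∧ ⋃₀ 𝒱 = univ ∧ (∀ V ∈ 𝒱, ∃ U ∈ 𝒰, V ⊆ U) ∧
      WeaklySigmaPointFinite 𝒱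

/-- A space is hereditarily weakly sigma-metacompact if all its subspaces are weakly
sigma-metacompact. -/
def HereditarilyWeaklySigmaMetacompact (Y : Type u) [TopologicalSpace Y] : Prop :=
  ∀ Z : Set Y, WeaklySigmaMetacompact Z

/-- A space is a Lindelof Sigma-space if there are a countable family `𝒩` of subsets and a cover
`𝒞` by compact subsets such that whenever `K ∈ 𝒞` and `U ⊇ K` is open there is `N ∈ 𝒩` with
`K ⊆ N ⊆ U`. -/
def LindelofSigma (Y : Type u) [TopologicalSpace Y] : Prop :=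
  ∃ (𝒩 : Set (Set Y)) (𝒞 : Set (Set Y)), 𝒩.Countable ∧ (∀ K ∈ 𝒞, IsCompact K) ∧ ⋃₀ 𝒞 = univ ∧
    ∀ K ∈ 𝒞, ∀ U : Set Y, IsOpen U → K ⊆ U → ∃ N ∈ 𝒩, K ⊆ N ∧ N ⊆ U

end Pool.Agent.H902R2.Wsm
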