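import Mathlib
import Pool.Agent.H902R2.Wsm

set_option autoImplicit false
set_option linter.unusedSectionVars false

/-!
# Lindelof Sigma subsets
-/

open Set Topology

namespace Pool.Agent.H902R2.LSsub

open Pool.Agent.H902R2.Wsm

universe u v w

/-- Lindelof Sigma subsets of a space. -/
def LS {E : Type u} [TopologicalSpace E] (A : Set E) : Prop :=
  ∃ 𝒩 : Set (Set E), 𝒩.Countable ∧ ∀ a ∈ A, ∃ K, IsCompact K ∧ K ⊆ A ∧ a ∈ K ∧
    ∀ U, IsOpen U → K ⊆ U → ∃ N ∈ 𝒩, K ⊆ N ∧ N ⊆ U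

variable {E : Type u} [TopologicalSpace E] {F : Type v} [TopologicalSpace F]

theorem LS.of_isCompact {A : Set E} (h : IsCompact A) : LS A :=
  ⟨{A}, countable_singleton A, fun _ ha => ⟨A, h, Subset.refl _, ha, fun _ _ hU =>
    ⟨A, mem_singleton _, Subset.refl _, hU⟩⟩⟩

theorem LS.image {A : Set E} (h : LS A) {f : E → F} (hf : Continuous f) : LS (f '' A) := by
  obtain ⟨𝒩, h1, h2⟩ := h
  refine ⟨(fun N => f '' N) '' 𝒩, h1.image _, ?_⟩
  rintro _ ⟨a, ha, rfl⟩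
  obtain ⟨K, hK, hKA, haK, hn⟩ := h2 a ha
  refine ⟨f '' K, hK.image hf, image_mono hKA, mem_image_of_mem f haK, fun U hU hKU => ?_⟩
  obtain ⟨N, hN, hKN, hNU⟩ := hn (f ⁻¹' U) (hU.preimage hf) (image_subset_iff.mp hKU)
  exact ⟨f '' N, mem_image_of_mem _ hN, image_mono hKN, image_subset_iff.mpr hNU⟩

theorem LS.prod {A : Set E} (h : LS A) {B : Set F} (h' : LS B) : LS (A ×ˢ B) := by
  obtain ⟨𝒩, h1, h2⟩ := h
  obtain ⟨ℳ, h1', h2'⟩ := h'
  refine ⟨image2 (fun N M => N ×ˢ M) 𝒩 ℳ, h1.image2 h1' _, ?_⟩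
  rintro ⟨a, b⟩ ⟨ha, hb⟩
  obtain ⟨K, hK, hKA, haK, hn⟩ := h2 a ha
  obtain ⟨L, hL, hLB, hbL, hn'⟩ := h2' b hb
  refine ⟨K ×ˢ L, hK.prod hL, prod_mono hKA hLB, ⟨haK, hbL⟩, fun U hU hKU => ?_⟩
  obtain ⟨u, v, hu, hv, hKu, hLv, huv⟩ := generalized_tube_lemma hK hL hU hKU
  obtain ⟨N, hN, hKN, hNU⟩ := hn u hu hKu
  obtain ⟨M, hM, hLM, hMV⟩ := hn' v hv hLv
  exact ⟨N ×ˢ M, mem_image2_of_mem hN hM, prod_mono hKN hLM, (prod_mono hNU hMV).trans huv⟩

theorem LS.iUnion {ι : Type w} [Countable ι] {A : ι → Set E} (h : ∀ i, LS (A i)) :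
    LS (⋃ i, A i) := by
  choose 𝒩 h1 h2 using h
  refine ⟨⋃ i, 𝒩 i, countable_iUnion h1, ?_⟩
  intro a ha
  obtain ⟨i, hi⟩ := mem_iUnion.mp ha
  obtain ⟨K, hK, hKA, haK, hn⟩ := h2 i a hi
  refine ⟨K, hK, hKA.trans (subset_iUnion A i), haK, fun U hU hKU => ?_⟩
  obtain ⟨N, hN, hN2⟩ := hn U hU hKU
  exact ⟨N, mem_iUnion.mpr ⟨i, hN⟩, hN2⟩

theorem LS.union {A B : Set E} (h : LS A) (h' : LS B) : LS (A ∪ B) := by
  rw [union_eq_iUnion]
  apply LS.iUnion
  intro b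
  cases b
  · exact h'
  · exact h

theorem exists_open_of_finset [T2Space E] [RegularSpace E] {ι : Type w} (s : Finset ι)
    (K : ι → Set E) (hK : ∀ i, IsCompact (K i)) (U : Set E) (hU : IsOpen U)
    (h : ⋂ i ∈ s, K i ⊆ U) : ∃ O : ι → Set E, (∀ i, IsOpen (O i)) ∧ (∀ i, K i ⊆ O i) ∧
      ⋂ i ∈ s, O i ⊆ U := by
  classical
  induction s using Finset.induction_on generalizing U with
  | empty =>
    exact ⟨fun _ => univ, fun _ => isOpen_univ, fun _ => subset_univ _, by simpa using h⟩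
  | insert a s has ih =>
    rw [Finset.set_biInter_insert] at h
    have hL : IsClosed (⋂ i ∈ s, K i) :=
      isClosed_biInter fun i _ => (hK i).isClosed
    have hd : Disjoint (K a \ U) ((⋂ i ∈ s, K i) \ U) := by
      rw [disjoint_left]
      rintro x ⟨hx1, hx2⟩ ⟨hx3, -⟩
      exact hx2 (h ⟨hx1, hx3⟩)
    obtain ⟨P, Q, hP, hQ, hPK, hQK, hPQ⟩ := SeparatedNhds.of_isCompact_isClosed
      ((hK a).diff hU) (hL.sdiff hU) hd
    obtain ⟨O, hO1, hO2, hO3⟩ := ih (U ∪ Q) (hU.union hQ) (by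
      intro x hx
      by_cases hxU : x ∈ U
      · exact Or.inl hxU
      · exact Or.inr (hQK ⟨hx, hxU⟩))
    refine ⟨fun i => if i = a then O i ∩ (U ∪ P) else O i, ?_, ?_, ?_⟩
    · intro i
      dsimp only
      split_ifs
      · exact (hO1 i).inter (hU.union hP)
      · exact hO1 i
    · intro i
      dsimp only
      split_ifs with hi
      · subst hi
        refine subset_inter (hO2 i) ?_
        intro x hx
        by_cases hxU : x ∈ U
        · exact Or.inl hxU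
        · exact Or.inr (hPK ⟨hx, hxU⟩)
      · exact hO2 i
    · intro x hx
      simp only [mem_iInter] at hx
      have h1 := hx a (Finset.mem_insert_self a s)
      rw [if_pos rfl] at h1
      have h2 : x ∈ U ∪ Q := by
        apply hO3
        simp only [mem_iInter]
        intro i hi
        have h3 := hx i (Finset.mem_insert_of_mem hi)
        split_ifs at h3
        · exact h3.1
        · exact h3
      rcases h2 with h2 | h2
      · exact h2
      rcases h1.2 with h3 | h3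
      · exact h3
      · exact absurd h2 (disjoint_left.mp hPQ h3)

theorem LS.iInter [T2Space E] [RegularSpace E] {A : ℕ → Set E} (h : ∀ i, LS (A i)) :
    LS (⋂ i, A i) := by
  classical
  choose 𝒩 h1 h2 using h
  have hcount : ∀ s : Finset ℕ, {M : Set E | ∃ N : ℕ → Set E, (∀ i ∈ s, N i ∈ 𝒩 i) ∧
      M = ⋂ i ∈ s, N i}.Countable := by
    intro s
    induction s using Finset.induction_on with
    | empty =>
      refine (countable_singleton (univ : Set E)).mono ?_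
      rintro M ⟨N, -, rfl⟩
      simp
    | insert a s has ih =>
      refine ((h1 a).image2 ih (fun N M => N ∩ M)).mono ?_
      rintro M ⟨N, hN, rfl⟩
      rw [Finset.set_biInter_insert]
      exact mem_image2_of_mem (hN a (Finset.mem_insert_self a s))
        ⟨N, fun i hi => hN i (Finset.mem_insert_of_mem hi), rfl⟩
  refine ⟨⋃ s : Finset ℕ, {M : Set E | ∃ N : ℕ → Set E, (∀ i ∈ s, N i ∈ 𝒩 i) ∧
      M = ⋂ i ∈ s, N i}, countable_iUnion hcount, ?_⟩
  intro a ha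
  have h3 := fun i => h2 i a (mem_iInter.mp ha i)
  choose K hK hKA haK hn using h3
  refine ⟨⋂ i, K i, (hK 0).of_isClosed_subset (isClosed_iInter fun i => (hK i).isClosed) (iInter_subset K 0),
    iInter_mono hKA, mem_iInter.mpr haK, fun U hU hKU => ?_⟩
  obtain ⟨s, hs⟩ : ∃ s : Finset ℕ, ⋂ i ∈ s, K i ⊆ U := by
    have h4 : (K 0 \ U) ∩ ⋂ i, K i = ∅ := by
      rw [eq_empty_iff_forall_notMem]
      rintro x ⟨⟨_, hx⟩, hx2⟩
      exact hx (hKU hx2)
    obtain ⟨s, hs⟩ := ((hK 0).diff hU).elim_finite_subfamily_closed K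
      (fun i => (hK i).isClosed) h4
    refine ⟨insert 0 s, fun x hx => ?_⟩
    rw [Finset.set_biInter_insert] at hx
    by_contra hxU
    have : x ∈ (K 0 \ U) ∩ ⋂ i ∈ s, K i := ⟨⟨hx.1, hxU⟩, hx.2⟩
    rw [hs] at this
    exact this
  obtain ⟨O, hO1, hO2, hO3⟩ := exists_open_of_finset s K hK U hU hs
  have h5 := fun i => hn i (O i) (hO1 i) (hO2 i)
  choose N hN hKN hNO using h5
  refine ⟨⋂ i ∈ s, N i, mem_iUnion.mpr ⟨s, N, fun i _ => hN i, rfl⟩, ?_, ?_⟩
  · intro x hx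
    simp only [mem_iInter] at hx ⊢
    intro i _
    exact hKN i (hx i)
  · refine subset_trans ?_ hO3
    exact iInter₂_mono fun i _ => hNO i

theorem LS.lindelofSigma {A : Set E} (h : LS A) : LindelofSigma A := by
  obtain ⟨𝒩, h1, h2⟩ := h
  refine ⟨(fun N => Subtype.val ⁻¹' N) '' 𝒩, {K | IsCompact K ∧ ∀ U : Set A, IsOpen U → K ⊆ U →
    ∃ N ∈ (fun N => Subtype.val ⁻¹' N) '' 𝒩, K ⊆ N ∧ N ⊆ U}, h1.image _, fun K hK => hK.1, ?_,
    fun K hK => hK.2⟩
  rw [eq_univ_iff_forall]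
  rintro ⟨a, ha⟩
  obtain ⟨K, hK, hKA, haK, hn⟩ := h2 a ha
  refine ⟨Subtype.val ⁻¹' K, ⟨?_, ?_⟩, haK⟩
  · rw [IsInducing.subtypeVal.isCompact_preimage_iff]
    · exact hK
    · rw [Subtype.range_val]; exact hKA
  · intro U hU hKU
    obtain ⟨O, hO, rfl⟩ := isOpen_induced_iff.mp hU
    obtain ⟨N, hN, hKN, hNO⟩ := hn O hO (fun x hx => by
      have : (⟨x, hKA hx⟩ : A) ∈ Subtype.val ⁻¹' O := hKU (show (⟨x, hKA hx⟩ : A).1 ∈ K from hx)
      exact this)
    exact ⟨_, mem_image_of_mem _ hN, preimage_mono hKN, preimage_mono hNO⟩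

end Pool.Agent.H902R2.LSsub
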