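import Mathlib
import Pool.Agent.H902R2.LS

set_option autoImplicit false
set_option linter.unusedSectionVars false

/-!
# From a separating family to the Lindelof Sigma property of the function space
-/

open Set Topology

namespace Pool.Agent.H902R2.Gulko

open Pool.Agent.H902R2.Wsm Pool.Agent.H902R2.LSsub

universe u

variable {X : Type u} [TopologicalSpace X] [CompactSpace X] [T2Space X]

/-- the box -/
def box (X : Type u) (c : ℝ) : Set (X → ℝ) := {h | ∀ x, |h x| ≤ c}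

theorem isCompact_box (c : ℝ) : IsCompact (box X c) := by
  have : box X c = Set.pi univ (fun _ : X => Icc (-c) c) := by
    ext h
    simp only [box, mem_pi, mem_univ, forall_const, mem_Icc, abs_le]
    rfl
  rw [this]
  exact isCompact_univ_pi fun _ => isCompact_Icc

theorem LS_family {𝕎 : Type u} (f : 𝕎 → X → ℝ) {K : Type} [Countable K] (Hf : 𝕎 → Set K)
    (hb : ∀ W x, |f W x| ≤ 1)
    (hH : ∀ W, ∀ P : Finset X, ∃ κ ∈ Hf W, ∀ x ∈ P, {W' | κ ∈ Hf W' ∧ f W' x ≠ 0}.Finite) :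
    LS (insert 0 (range f)) := by
  classical
  let A : K → Set (X → ℝ) := fun κ => closure (f '' {W | κ ∈ Hf W})
  have hA : ∀ κ, IsCompact (A κ) := by
    intro κ
    refine (isCompact_box 1).of_isClosed_subset isClosed_closure ?_
    refine closure_minimal ?_ (isCompact_box 1).isClosed
    rintro _ ⟨W, -, rfl⟩
    exact hb W
  refine ⟨insert {0} (range fun s : Finset K => ⋂ κ ∈ s, A κ), (countable_range _).insert _, ?_⟩
  rintro a (rfl | ⟨W, rfl⟩)
  · exact ⟨{0}, isCompact_singleton, by simp, mem_singleton _, fun U _ hU =>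
      ⟨{0}, mem_insert _ _, Subset.refl _, hU⟩⟩
  obtain ⟨κ0, hκ0, -⟩ := hH W ∅
  have hcl : IsClosed (⋂ κ ∈ Hf W, A κ) := isClosed_biInter fun κ _ => isClosed_closure
  refine ⟨⋂ κ ∈ Hf W, A κ, (hA κ0).of_isClosed_subset hcl (biInter_subset_of_mem hκ0), ?_, ?_, ?_⟩
  · intro h hh
    by_cases h0 : h = 0
    · exact Or.inl h0
    right
    obtain ⟨x, hx⟩ : ∃ x, h x ≠ 0 := by
      by_contra hcon
      push Not at hcon
      exact h0 (funext hcon)
    obtain ⟨κ, hκ, hfin⟩ := hH W {x}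
    have hfin := hfin x (Finset.mem_singleton_self x)
    have h1 : h ∈ A κ := mem_iInter₂.mp hh κ hκ
    have h2 : h ∈ closure (f '' {W' | κ ∈ Hf W' ∧ f W' x ≠ 0}) := by
      rw [mem_closure_iff]
      intro O hO hhO
      have hO' : IsOpen (O ∩ {g : X → ℝ | g x ≠ 0}) :=
        hO.inter (isOpen_ne_fun (continuous_apply x) continuous_const)
      obtain ⟨_, ⟨hg1, hg2⟩, ⟨W', hW', rfl⟩⟩ := mem_closure_iff.mp h1 _ hO' ⟨hhO, hx⟩
      exact ⟨f W', hg1, W', ⟨hW', hg2⟩, rfl⟩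
    rw [(hfin.image f).isClosed.closure_eq] at h2
    obtain ⟨W', -, hW'⟩ := h2
    exact ⟨W', hW'⟩
  · simp only [mem_iInter]
    intro κ hκ
    exact subset_closure ⟨W, hκ, rfl⟩
  · intro U hU hKU
    have h4 : (A κ0 \ U) ∩ ⋂ κ : Hf W, A κ = ∅ := by
      rw [eq_empty_iff_forall_notMem]
      rintro x ⟨⟨_, hx⟩, hx2⟩
      apply hx
      apply hKU
      simp only [mem_iInter] at hx2 ⊢
      intro κ hκ
      exact hx2 ⟨κ, hκ⟩
    obtain ⟨s, hs⟩ := ((hA κ0).diff hU).elim_finite_subfamily_closed (fun κ : Hf W => A κ)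
      (fun κ => isClosed_closure) h4
    refine ⟨⋂ κ ∈ insert κ0 (s.image Subtype.val), A κ, mem_insert_of_mem _ ⟨_, rfl⟩, ?_, ?_⟩
    · intro x hx
      simp only [mem_iInter] at hx ⊢
      intro κ hκ
      apply hx
      rw [Finset.mem_insert, Finset.mem_image] at hκ
      rcases hκ with rfl | ⟨κ', _, rfl⟩
      · exact hκ0
      · exact κ'.2
    · intro x hx
      simp only [mem_iInter] at hx
      by_contra hxU
      have : x ∈ (A κ0 \ U) ∩ ⋂ i ∈ s, A i := by
        refine ⟨⟨hx κ0 (Finset.mem_insert_self _ _), hxU⟩, ?_⟩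
        simp only [mem_iInter]
        intro κ hκ
        exact hx κ (Finset.mem_insert_of_mem (Finset.mem_image_of_mem _ hκ))
      rw [hs] at this
      exact this

/-- polynomials in the family -/
def Pn (A : Set (X → ℝ)) : ℕ → Set (X → ℝ)
  | 0 => A ∪ ⋃ m : ℕ, (fun c : ℝ => fun _ : X => c) '' Icc (-(m : ℝ)) m
  | n + 1 => (fun p : (X → ℝ) × (X → ℝ) => p.1 + p.2) '' (Pn A n ×ˢ Pn A n) ∪
      (fun p : (X → ℝ) × (X → ℝ) => p.1 * p.2) '' (Pn A n ×ˢ Pn A n) ∪ Pn A n

theorem LS_Pn {A : Set (X → ℝ)} (hA : LS A) (n : ℕ) : LS (Pn A n) := by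
  induction n with
  | zero =>
    apply LS.union hA
    apply LS.iUnion
    intro m
    apply LS.image (LS.of_isCompact isCompact_Icc)
    exact continuous_pi fun _ => continuous_id
  | succ n ih =>
    refine LS.union (LS.union ?_ ?_) ih
    · exact (ih.prod ih).image (continuous_fst.add continuous_snd)
    · exact (ih.prod ih).image (continuous_fst.mul continuous_snd)

theorem Pn_mono (A : Set (X → ℝ)) : Monotone (Pn A) :=
  monotone_nat_of_le_succ fun _ => subset_union_right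

theorem continuous_of_mem_Pn {A : Set (X → ℝ)} (hA : ∀ h ∈ A, Continuous h) (n : ℕ) :
    ∀ h ∈ Pn A n, Continuous h := by
  induction n with
  | zero =>
    rintro h (hh | hh)
    · exact hA h hh
    · obtain ⟨m, c, -, rfl⟩ := mem_iUnion.mp hh
      exact continuous_const
  | succ n ih =>
    rintro _ ((⟨p, ⟨h1, h2⟩, rfl⟩ | ⟨p, ⟨h1, h2⟩, rfl⟩) | hh)
    · exact (ih _ h1).add (ih _ h2)
    · exact (ih _ h1).mul (ih _ h2)
    · exact ih _ hh

/-- the algebra -/
def alg (A : Set (X → ℝ)) : Subalgebra ℝ C(X, ℝ) where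
  carrier := {h | (h : X → ℝ) ∈ ⋃ n, Pn A n}
  mul_mem' := by
    intro a b ha hb
    obtain ⟨n, hn⟩ := mem_iUnion.mp ha
    obtain ⟨m, hm⟩ := mem_iUnion.mp hb
    refine mem_iUnion.mpr ⟨max n m + 1, Or.inl (Or.inr ⟨(a, b), ⟨?_, ?_⟩, rfl⟩)⟩
    · exact Pn_mono A (le_max_left _ _) hn
    · exact Pn_mono A (le_max_right _ _) hm
  add_mem' := by
    intro a b ha hb
    obtain ⟨n, hn⟩ := mem_iUnion.mp ha
    obtain ⟨m, hm⟩ := mem_iUnion.mp hb
    refine mem_iUnion.mpr ⟨max n m + 1, Or.inl (Or.inl ⟨(a, b), ⟨?_, ?_⟩, rfl⟩)⟩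
    · exact Pn_mono A (le_max_left _ _) hn
    · exact Pn_mono A (le_max_right _ _) hm
  algebraMap_mem' := by
    intro r
    refine mem_iUnion.mpr ⟨0, Or.inr ?_⟩
    obtain ⟨m, hm⟩ := exists_nat_ge |r|
    refine mem_iUnion.mpr ⟨m, r, abs_le.mp hm, ?_⟩
    funext x
    simp

theorem LS_continuous {𝕎 : Type u} (f : 𝕎 → X → ℝ) {K : Type} [Countable K] (Hf : 𝕎 → Set K)
    (hc : ∀ W, Continuous (f W)) (hsep : ∀ x y, x ≠ y → ∃ W, f W x ≠ f W y)
    (hb : ∀ W x, |f W x| ≤ 1)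
    (hH : ∀ W, ∀ P : Finset X, ∃ κ ∈ Hf W, ∀ x ∈ P, {W' | κ ∈ Hf W' ∧ f W' x ≠ 0}.Finite) :
    LS {h : X → ℝ | Continuous h} := by
  have hA := LS_family f Hf hb hH
  set A : Set (X → ℝ) := insert 0 (range f) with hAdef
  have hAc : ∀ h ∈ A, Continuous h := by
    rintro h (rfl | ⟨W, rfl⟩)
    · exact continuous_const
    · exact hc W
  have hQ : LS (⋃ n, Pn A n) := LS.iUnion fun n => LS_Pn hA n
  have hQc : ∀ h ∈ ⋃ n, Pn A n, Continuous h := by
    intro h hh
    obtain ⟨n, hn⟩ := mem_iUnion.mp hh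
    exact continuous_of_mem_Pn hAc n h hn
  have heq : {h : X → ℝ | Continuous h} = ⋂ n : ℕ, (fun p : (X → ℝ) × (X → ℝ) => p.1 + p.2) ''
      ((⋃ n, Pn A n) ×ˢ box X (1 / ((n : ℝ) + 1))) := by
    apply Subset.antisymm
    · intro h hh
      rw [mem_iInter]
      intro n
      have hs : (alg A).SeparatesPoints := by
        intro x y hxy
        obtain ⟨W, hW⟩ := hsep x y hxy
        refine ⟨f W, ⟨⟨f W, hc W⟩, ?_, rfl⟩, hW⟩
        exact mem_iUnion.mpr ⟨0, Or.inl (Or.inr ⟨W, rfl⟩)⟩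
      obtain ⟨g, hg⟩ := ContinuousMap.exists_mem_subalgebra_near_continuous_of_separatesPoints
        (alg A) hs h hh (1 / ((n : ℝ) + 1)) (by positivity)
      refine ⟨(g.1, h - g.1), ⟨g.2, ?_⟩, ?_⟩
      · intro x
        have := (hg x).le
        rw [Real.norm_eq_abs, abs_sub_comm] at this
        exact this
      · funext x
        simp
    · intro h hh
      rw [mem_iInter] at hh
      choose p hp hp2 using hh
      have hlim : TendstoUniformly (fun n => (p n).1) h Filter.atTop := by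
        rw [Metric.tendstoUniformly_iff]
        intro ε hε
        have h1 : Filter.Tendsto (fun n : ℕ => 1 / ((n : ℝ) + 1)) Filter.atTop (nhds 0) :=
          tendsto_one_div_add_atTop_nhds_zero_nat
        filter_upwards [h1.eventually (gt_mem_nhds hε)] with n hn x
        have h2 : h x = (p n).1 x + (p n).2 x := (congrFun (hp2 n) x).symm
        rw [Real.dist_eq, h2, add_sub_cancel_left]
        exact ((hp n).2 x).trans_lt hn
      exact hlim.continuous (Filter.Frequently.of_forall fun n => hQc _ (hp n).1)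
  rw [heq]
  apply LS.iInter
  intro n
  exact (hQ.prod (LS.of_isCompact (isCompact_box _))).image (continuous_fst.add continuous_snd)

theorem lindelofSigma_Cp {𝕎 : Type u} (f : 𝕎 → X → ℝ) {K : Type} [Countable K] (Hf : 𝕎 → Set K)
    (hc : ∀ W, Continuous (f W)) (hsep : ∀ x y, x ≠ y → ∃ W, f W x ≠ f W y)
    (hH : ∀ W, ∀ P : Finset X, ∃ κ ∈ Hf W, ∀ x ∈ P, {W' | κ ∈ Hf W' ∧ f W' x ≠ 0}.Finite) :
    LindelofSigma {h : X → ℝ // Continuous h} := by
  have hpos : ∀ t : ℝ, 0 < 1 + |t| := fun t => by positivity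
  refine (LS_continuous (fun W x => f W x / (1 + |f W x|)) Hf ?_ ?_ ?_ ?_).lindelofSigma
  · intro W
    exact (hc W).div (continuous_const.add (hc W).abs) fun x => (hpos _).ne'
  · intro x y hxy
    obtain ⟨W, hW⟩ := hsep x y hxy
    refine ⟨W, fun heq => hW ?_⟩
    generalize f W x = a at heq
    generalize f W y = b at heq
    rw [div_eq_div_iff (hpos _).ne' (hpos _).ne'] at heq
    rcases abs_cases a with ⟨h1, h2⟩ | ⟨h1, h2⟩ <;> rcases abs_cases b with ⟨h3, h4⟩ | ⟨h3, h4⟩ <;>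
      rw [h1, h3] at heq <;> nlinarith
  · intro W x
    rw [abs_div, abs_of_pos (hpos _), div_le_one (hpos _)]
    linarith
  · intro W P
    obtain ⟨κ, hκ, hκ2⟩ := hH W P
    refine ⟨κ, hκ, fun x hx => (hκ2 x hx).subset ?_⟩
    rintro W' ⟨h1, h2⟩
    refine ⟨h1, fun h0 => h2 ?_⟩
    rw [h0, zero_div]

end Pool.Agent.H902R2.Gulko
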