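import Mathlib
import Pool.Agent.H902R2.Wsm

set_option autoImplicit false
set_option linter.unusedSectionVars false

/-!
# From a separating family to hereditary weak sigma-metacompactness
-/

open Set Topology

namespace Pool.Agent.H902R2.Hered

open Pool.Agent.H902R2.Wsm

universe u

variable {X : Type u} [TopologicalSpace X] [CompactSpace X] [T2Space X]

/-- basic open sets -/
def E {𝕎 : Type u} (f : 𝕎 → X → ℝ) (r : ℚ) (A : List (𝕎 × ℚ × ℚ)) (B : Finset 𝕎) : Set X :=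
  {q | (∀ w ∈ A, (w.2.1 : ℝ) < f w.1 q ∧ f w.1 q < w.2.2) ∧ ∀ W ∈ B, |f W q| < r}

theorem isOpen_E {𝕎 : Type u} (f : 𝕎 → X → ℝ) (hc : ∀ W, Continuous (f W)) (r : ℚ)
    (A : List (𝕎 × ℚ × ℚ)) (B : Finset 𝕎) : IsOpen (E f r A B) := by
  classical
  have h : E f r A B = (⋂ w ∈ A.toFinset, {q | (w.2.1 : ℝ) < f w.1 q ∧ f w.1 q < w.2.2}) ∩
      ⋂ W ∈ B, {q | |f W q| < r} := by
    ext q
    simp [E]
  rw [h]
  apply IsOpen.inter
  · apply isOpen_biInter_finset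
    intro w _
    exact (isOpen_lt continuous_const (hc _)).inter (isOpen_lt (hc _) continuous_const)
  · apply isOpen_biInter_finset
    intro W _
    exact isOpen_lt (hc _).abs continuous_const

theorem finite_lists {𝕎 : Type u} {K : Type} (g : 𝕎 → Prop) (Hf : 𝕎 → Set K)
    (T : List (K × ℚ × ℚ)) (hT : ∀ t ∈ T, {W | t.1 ∈ Hf W ∧ g W}.Finite) :
    {A : List (𝕎 × ℚ × ℚ) | List.Forall₂ (fun w t => t.1 ∈ Hf w.1 ∧ w.2 = t.2) A T ∧
      ∀ w ∈ A, g w.1}.Finite := by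
  induction T with
  | nil =>
    refine (Set.finite_singleton ([] : List (𝕎 × ℚ × ℚ))).subset ?_
    rintro A ⟨h, -⟩
    cases h
    rfl
  | cons t T ih =>
    have h1 := hT t (List.mem_cons_self)
    have h2 := ih fun t' ht' => hT t' (List.mem_cons_of_mem _ ht')
    refine ((h1.prod h2).image (fun p : 𝕎 × List (𝕎 × ℚ × ℚ) => (p.1, t.2) :: p.2)).subset ?_
    rintro A ⟨h, hg⟩
    cases h with
    | cons hw hl =>
      rename_i w A'
      refine ⟨(w.1, A'), ⟨⟨hw.1, hg w List.mem_cons_self⟩, hl,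
        fun w' hw' => hg w' (List.mem_cons_of_mem _ hw')⟩, ?_⟩
      dsimp only
      rw [← hw.2]

theorem exists_finset {𝕎 : Type u} (f : 𝕎 → X → ℝ) (hc : ∀ W, Continuous (f W))
    (hsep : ∀ x y, x ≠ y → ∃ W, f W x ≠ f W y) (q : X) (O : Set X) (hO : IsOpen O) (hq : q ∈ O) :
    ∃ (I : Finset 𝕎) (ε : ℝ), 0 < ε ∧ ∀ q', (∀ W ∈ I, |f W q' - f W q| < ε) → q' ∈ O := by
  classical
  have hK : IsCompact Oᶜ := hO.isClosed_compl.isCompact
  obtain ⟨I, hI⟩ := hK.elim_finite_subfamily_closed (fun W => {q' | f W q' = f W q})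
    (fun W => isClosed_eq (hc W) continuous_const) (by
      rw [eq_empty_iff_forall_notMem]
      rintro x ⟨hx, hx2⟩
      simp only [mem_iInter] at hx2
      by_cases h : x = q
      · subst h; exact hx hq
      · obtain ⟨W, hW⟩ := hsep x q h
        exact hW (hx2 W))
  let F : X → ℝ := fun q' => ∑ W ∈ I, |f W q' - f W q|
  have hF : Continuous F := by
    apply continuous_finsetSum
    intro W _
    exact ((hc W).sub continuous_const).abs
  have hFpos : ∀ q' ∈ Oᶜ, 0 < F q' := by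
    intro q' hq'
    by_contra hcon
    have h0 : F q' = 0 := le_antisymm (not_lt.mp hcon) (Finset.sum_nonneg fun _ _ => abs_nonneg _)
    rw [Finset.sum_eq_zero_iff_of_nonneg fun _ _ => abs_nonneg _] at h0
    have : q' ∈ Oᶜ ∩ ⋂ W ∈ I, {q' | f W q' = f W q} := by
      refine ⟨hq', ?_⟩
      simp only [mem_iInter]
      intro W hW
      exact sub_eq_zero.mp (abs_eq_zero.mp (h0 W hW))
    rw [hI] at this
    exact this
  obtain ⟨δ, hδ, hδ2⟩ : ∃ δ > 0, ∀ q' ∈ Oᶜ, δ ≤ F q' := by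
    rcases (Oᶜ).eq_empty_or_nonempty with he | hne
    · exact ⟨1, one_pos, fun q' hq' => by rw [he] at hq'; exact absurd hq' (notMem_empty _)⟩
    · obtain ⟨z, hz, hz2⟩ := hK.exists_isMinOn hne hF.continuousOn
      exact ⟨F z, hFpos z hz, fun q' hq' => hz2 hq'⟩
  refine ⟨I, δ / (I.card + 1), by positivity, fun q' hq' => ?_⟩
  by_contra hcon
  have h1 := hδ2 q' hcon
  have h2 : F q' ≤ I.card * (δ / (I.card + 1)) := by
    have := Finset.sum_le_card_nsmul I (fun W => |f W q' - f W q|) (δ / (I.card + 1))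
      fun W hW => (hq' W hW).le
    rwa [nsmul_eq_mul] at this
  have h3 : (I.card : ℝ) * (δ / (I.card + 1)) < δ := by
    rw [mul_div_assoc', div_lt_iff₀ (by positivity)]
    nlinarith
  linarith

theorem exists_interval (t ε : ℝ) (hε : 0 < ε) (ht : t ≠ 0) : ∃ a b : ℚ, (a : ℝ) < t ∧ t < b ∧
    (b : ℝ) - a < ε ∧ (0 < a ∨ b < 0) := by
  have hδ : 0 < min (ε / 2) |t| := lt_min (by positivity) (abs_pos.mpr ht)
  obtain ⟨a, ha1, ha2⟩ := exists_rat_btwn (show t - min (ε / 2) |t| < t by linarith)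
  obtain ⟨b, hb1, hb2⟩ := exists_rat_btwn (show t < t + min (ε / 2) |t| by linarith)
  have h1 := min_le_left (ε / 2) |t|
  have h2 := min_le_right (ε / 2) |t|
  refine ⟨a, b, ha2, hb1, by linarith, ?_⟩
  rcases lt_or_gt_of_ne ht with h | h
  · right
    rw [abs_of_neg h] at *
    have : (b : ℝ) < 0 := by linarith
    exact_mod_cast this
  · left
    rw [abs_of_pos h] at *
    have : (0 : ℝ) < a := by linarith
    exact_mod_cast this

theorem hereditarily {𝕎 : Type u} (f : 𝕎 → X → ℝ) {K : Type} [Countable K] (Hf : 𝕎 → Set K)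
    (hc : ∀ W, Continuous (f W)) (hsep : ∀ x y, x ≠ y → ∃ W, f W x ≠ f W y)
    (hH : ∀ W, ∀ P : Finset X, ∃ κ ∈ Hf W, ∀ x ∈ P, {W' | κ ∈ Hf W' ∧ f W' x ≠ 0}.Finite) :
    HereditarilyWeaklySigmaMetacompact X := by
  classical
  intro Z 𝒰 h𝒰o h𝒰c
  -- data
  let valid : Finset K → List (𝕎 × ℚ × ℚ) → Finset 𝕎 → Prop := fun J A B =>
    ∀ W ∈ B, (∀ w ∈ A, w.1 ≠ W) ∧ ∃ i ∈ J, i ∈ Hf W
  let Adm : Finset K × ℚ × List (𝕎 × ℚ × ℚ) → Prop := fun d =>
    (∀ w ∈ d.2.2, 0 < w.2.1 ∨ w.2.2 < 0) ∧ ∃ B, valid d.1 d.2.2 B ∧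
      ∃ U ∈ 𝒰, (Subtype.val : Z → X) ⁻¹' (E f d.2.1 d.2.2 B) ⊆ U
  let Bd : ∀ d, Adm d → Finset 𝕎 := fun d h => h.2.choose
  have hBd : ∀ d (h : Adm d), valid d.1 d.2.2 (Bd d h) ∧
      ∃ U ∈ 𝒰, (Subtype.val : Z → X) ⁻¹' (E f d.2.1 d.2.2 (Bd d h)) ⊆ U :=
    fun d h => h.2.choose_spec
  let Ed : ∀ d, Adm d → Set Z := fun d h => (Subtype.val : Z → X) ⁻¹' (E f d.2.1 d.2.2 (Bd d h))
  obtain ⟨enc, henc⟩ := exists_injective_nat (Finset K × ℚ × List (K × ℚ × ℚ))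
  let F : ℕ → Set (Set Z) := fun n => {V | ∃ d, ∃ h : Adm d, ∃ T : List (K × ℚ × ℚ),
    List.Forall₂ (fun w t => t.1 ∈ Hf w.1 ∧ w.2 = t.2) d.2.2 T ∧ enc (d.1, d.2.1, T) = n ∧
      V = Ed d h}
  have hF : ∀ n, F n ⊆ {V | ∃ d, ∃ h : Adm d, V = Ed d h} := by
    rintro n V ⟨d, h, T, -, -, rfl⟩
    exact ⟨d, h, rfl⟩
  have hForall : ∀ (hh : 𝕎 → K) (_ : ∀ W, hh W ∈ Hf W) (A : List (𝕎 × ℚ × ℚ)),
      List.Forall₂ (fun (w : 𝕎 × ℚ × ℚ) (t : K × ℚ × ℚ) => t.1 ∈ Hf w.1 ∧ w.2 = t.2) A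
        (A.map fun w => (hh w.1, w.2)) := by
    intro hh hhh A
    rw [List.forall₂_map_right_iff]
    induction A with
    | nil => exact List.Forall₂.nil
    | cons w A ih => exact List.Forall₂.cons ⟨hhh _, rfl⟩ ih
  refine ⟨{V | ∃ d, ∃ h : Adm d, V = Ed d h}, ?_, ?_, ?_, F, ?_, ?_⟩
  · rintro V ⟨d, h, rfl⟩
    exact (isOpen_E f hc _ _ _).preimage continuous_subtype_val
  · rw [eq_univ_iff_forall]
    intro q
    have hq : q ∈ ⋃₀ 𝒰 := by rw [h𝒰c]; trivial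
    obtain ⟨U, hU, hqU⟩ := hq
    obtain ⟨O, hO, rfl⟩ := isOpen_induced_iff.mp (h𝒰o U hU)
    obtain ⟨I, ε, hε, hI⟩ := exists_finset f hc hsep q.1 O hO hqU
    have h1 : ∀ W, ∃ κ ∈ Hf W, {W' | κ ∈ Hf W' ∧ f W' q.1 ≠ 0}.Finite := by
      intro W
      obtain ⟨κ, hκ, hκ2⟩ := hH W {q.1}
      exact ⟨κ, hκ, hκ2 _ (Finset.mem_singleton_self _)⟩
    choose hh hhh hhf using h1
    let J : Finset K := I.image hh
    have hA0 : {W' | (∃ i ∈ J, i ∈ Hf W') ∧ f W' q.1 ≠ 0}.Finite := by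
      refine (I.finite_toSet.biUnion fun W _ => hhf W).subset ?_
      rintro W' ⟨⟨i, hi, hi2⟩, hW'⟩
      obtain ⟨W, hW, rfl⟩ := Finset.mem_image.mp hi
      simp only [mem_iUnion]
      exact ⟨W, hW, hi2, hW'⟩
    have h2 : ∀ W, ∃ ab : ℚ × ℚ, f W q.1 ≠ 0 → (ab.1 : ℝ) < f W q.1 ∧ f W q.1 < ab.2 ∧
        (ab.2 : ℝ) - ab.1 < ε ∧ (0 < ab.1 ∨ ab.2 < 0) := by
      intro W
      by_cases h0 : f W q.1 = 0
      · exact ⟨(0, 0), fun h => absurd h0 h⟩
      · obtain ⟨a, b, hab⟩ := exists_interval (f W q.1) ε hε h0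
        exact ⟨(a, b), fun _ => hab⟩
    choose ab hab using h2
    obtain ⟨r, hr0, hrε⟩ := exists_rat_btwn hε
    let A : List (𝕎 × ℚ × ℚ) := hA0.toFinset.toList.map fun W => (W, ab W)
    have hAmem : ∀ w, w ∈ A ↔ ((∃ i ∈ J, i ∈ Hf w.1) ∧ f w.1 q.1 ≠ 0) ∧ w.2 = ab w.1 := by
      rintro ⟨W, c⟩
      simp only [A, List.mem_map, Finset.mem_toList, Finite.mem_toFinset, mem_ofPred_eq,
        Prod.mk.injEq]
      constructor
      · rintro ⟨W', h1, rfl, rfl⟩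
        exact ⟨h1, rfl⟩
      · rintro ⟨h1, h2⟩
        exact ⟨W, h1, rfl, h2.symm⟩
    let B : Finset 𝕎 := I.filter fun W => f W q.1 = 0
    have hadm : Adm (J, r, A) := by
      refine ⟨?_, B, ?_, _, hU, ?_⟩
      · intro w hw
        have := (hAmem w).mp hw
        rw [this.2]
        exact (hab w.1 this.1.2).2.2.2
      · intro W hW
        obtain ⟨hW1, hW2⟩ := Finset.mem_filter.mp hW
        refine ⟨?_, hh W, Finset.mem_image_of_mem _ hW1, hhh W⟩
        rintro w hw rfl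
        exact ((hAmem w).mp hw).1.2 hW2
      · rintro q' ⟨hq1, hq2⟩
        apply hI
        intro W hW
        by_cases h0 : f W q.1 = 0
        · have := hq2 W (Finset.mem_filter.mpr ⟨hW, h0⟩)
          rw [h0, sub_zero]
          exact this.trans hrε
        · have hm : (W, ab W) ∈ A := (hAmem _).mpr
            ⟨⟨⟨hh W, Finset.mem_image_of_mem _ hW, hhh W⟩, h0⟩, rfl⟩
          have h3 := hq1 _ hm
          have h4 := hab W h0
          simp only at h3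
          rw [abs_lt]
          constructor <;> linarith [h3.1, h3.2, h4.1, h4.2.1, h4.2.2.1]
    refine ⟨_, ⟨_, hadm, rfl⟩, ?_⟩
    refine ⟨?_, ?_⟩
    · intro w hw
      have h3 := (hAmem w).mp hw
      rw [h3.2]
      have h4 := hab w.1 h3.1.2
      exact ⟨h4.1, h4.2.1⟩
    · intro W hW
      have h3 := (hBd _ hadm).1 W hW
      have h0 : f W q.1 = 0 := by
        by_contra h0
        exact h3.1 (W, ab W) ((hAmem _).mpr ⟨⟨h3.2, h0⟩, rfl⟩) rfl
      rw [h0, abs_zero]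
      exact hr0
  · rintro V ⟨d, h, rfl⟩
    exact (hBd d h).2
  · apply Subset.antisymm
    · rintro V ⟨d, h, rfl⟩
      have h1 : ∀ W, ∃ κ, κ ∈ Hf W := by
        intro W
        obtain ⟨κ, hκ, -⟩ := hH W ∅
        exact ⟨κ, hκ⟩
      choose hh hhh using h1
      exact mem_iUnion.mpr ⟨_, d, h, _, hForall hh hhh d.2.2, rfl, rfl⟩
    · exact iUnion_subset hF
  · intro y
    apply Subset.antisymm
    · rintro V ⟨d, h, rfl⟩
      have h1 : ∀ W, ∃ κ ∈ Hf W, {W' | κ ∈ Hf W' ∧ f W' y.1 ≠ 0}.Finite := by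
        intro W
        obtain ⟨κ, hκ, hκ2⟩ := hH W {y.1}
        exact ⟨κ, hκ, hκ2 _ (Finset.mem_singleton_self _)⟩
      choose hh hhh hhf using h1
      let T : List (K × ℚ × ℚ) := d.2.2.map fun w => (hh w.1, w.2)
      refine mem_iUnion₂.mpr ⟨enc (d.1, d.2.1, T), ?_, d, h, T, hForall hh hhh d.2.2, rfl, rfl⟩
      have hfin := finite_lists (fun W => f W y.1 ≠ 0) Hf T (by
        intro t ht
        obtain ⟨w, _, rfl⟩ := List.mem_map.mp ht
        exact hhf w.1)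
      refine (hfin.image (fun A => if h : Adm (d.1, d.2.1, A) then Ed (d.1, d.2.1, A) h
        else ∅)).subset ?_
      rintro V ⟨⟨⟨J', r', A'⟩, h', T', hT', he, rfl⟩, hy⟩
      have he' := henc he
      simp only [Prod.mk.injEq] at he'
      obtain ⟨e1, e2, e3⟩ := he'
      subst e1 e2 e3
      refine ⟨A', ⟨hT', ?_⟩, ?_⟩
      · intro w hw h0
        have h5 := hy.1 w hw
        rw [h0] at h5
        rcases h'.1 w hw with h6 | h6
        · have : (0 : ℝ) < w.2.1 := by exact_mod_cast h6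
          linarith [h5.1]
        · have : (w.2.2 : ℝ) < 0 := by exact_mod_cast h6
          linarith [h5.2]
      · simp only
        rw [dif_pos h']
    · exact iUnion₂_subset fun n _ => hF n

/-- The square of a space with a family has a family. -/
theorem square {𝕎 : Type u} (f : 𝕎 → X → ℝ) {K : Type} [Countable K] (Hf : 𝕎 → Set K)
    (hc : ∀ W, Continuous (f W)) (hsep : ∀ x y, x ≠ y → ∃ W, f W x ≠ f W y)
    (hH : ∀ W, ∀ P : Finset X, ∃ κ ∈ Hf W, ∀ x ∈ P, {W' | κ ∈ Hf W' ∧ f W' x ≠ 0}.Finite) :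
    HereditarilyWeaklySigmaMetacompact (X × X) := by
  classical
  refine hereditarily (𝕎 := 𝕎 ⊕ 𝕎)
    (fun W p => W.elim (fun W => f W p.1) (fun W => f W p.2))
    (K := K ⊕ K) (fun W => W.elim (fun W => Sum.inl '' Hf W) (fun W => Sum.inr '' Hf W))
    ?_ ?_ ?_
  · rintro (W | W)
    · exact (hc W).comp continuous_fst
    · exact (hc W).comp continuous_snd
  · rintro ⟨x, y⟩ ⟨x', y'⟩ hne
    by_cases hx : x = x'
    · have hy : y ≠ y' := fun hy => hne (by rw [hx, hy])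
      obtain ⟨W, hW⟩ := hsep y y' hy
      exact ⟨Sum.inr W, hW⟩
    · obtain ⟨W, hW⟩ := hsep x x' hx
      exact ⟨Sum.inl W, hW⟩
  · rintro (W | W) P
    · obtain ⟨κ, hκ, hκ2⟩ := hH W (P.image Prod.fst)
      refine ⟨Sum.inl κ, ⟨κ, hκ, rfl⟩, fun p hp => ?_⟩
      refine ((hκ2 p.1 (Finset.mem_image_of_mem _ hp)).image Sum.inl).subset ?_
      rintro (W' | W') ⟨h1, h2⟩
      · obtain ⟨κ', hκ', he⟩ := h1
        rw [Sum.inl_injective he] at hκ'
        exact ⟨W', ⟨hκ', h2⟩, rfl⟩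
      · obtain ⟨κ', hκ', he⟩ := h1
        exact absurd he (by simp)
    · obtain ⟨κ, hκ, hκ2⟩ := hH W (P.image Prod.snd)
      refine ⟨Sum.inr κ, ⟨κ, hκ, rfl⟩, fun p hp => ?_⟩
      refine ((hκ2 p.2 (Finset.mem_image_of_mem _ hp)).image Sum.inr).subset ?_
      rintro (W' | W') ⟨h1, h2⟩
      · obtain ⟨κ', hκ', he⟩ := h1
        exact absurd he (by simp)
      · obtain ⟨κ', hκ', he⟩ := h1
        rw [Sum.inr_injective he] at hκ'
        exact ⟨W', ⟨hκ', h2⟩, rfl⟩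

end Pool.Agent.H902R2.Hered
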