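import Mathlib
import Pool.Agent.H902R2.FinCl

set_option autoImplicit false
set_option linter.dupNamespace false
set_option linter.unusedSectionVars false

/-!
# Systems of open sets off the diagonal, and retractions
-/

open Set Topology

namespace Pool.Agent.H902R2.Sys

universe u

/-- A system on the compact space `X`: open sets `V v` of the square, continuous functions `g v`
with `g v = 0` on the first projection of `V v` and `g v = 1` on the second one, covering the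
complement of the diagonal, with a weak form of sigma-point-finiteness. -/
structure Sys (X : Type u) [TopologicalSpace X] where
  /-- index type of the cover -/
  𝕍 : Type u
  /-- countable index type of the decomposition -/
  I : Type
  cI : Countable I
  V : 𝕍 → Set (X × X)
  hV : ∀ v, IsOpen (V v)
  g : 𝕍 → X → ℝ
  hg : ∀ v, Continuous (g v)
  g0 : ∀ v x y, (x, y) ∈ V v → g v x = 0
  g1 : ∀ v x y, (x, y) ∈ V v → g v y = 1
  cover : ∀ x y, x ≠ y → ∃ v, (x, y) ∈ V v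
  H : 𝕍 → Set I
  wpf : ∀ v, ∀ P : Finset (X × X), ∃ i ∈ H v, ∀ p ∈ P, {w | i ∈ H w ∧ p ∈ V w}.Finite

variable {X : Type u} [TopologicalSpace X] (S : Sys X)

namespace Sys

/-- the index `i` is good for the point `p` -/
def Gd (i : S.I) (p : X × X) : Prop := {w | i ∈ S.H w ∧ p ∈ S.V w}.Finite

/-- big sets of sequences of indices -/
def Big : ℕ → Set (List S.I) → Prop
  | 0, 𝔾 => [] ∈ 𝔾
  | k + 1, 𝔾 => ∃ P : Finset (X × X), ∀ i, (∀ p ∈ P, S.Gd i p) → Big k {s | i :: s ∈ 𝔾}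

theorem Big.mono {k : ℕ} {𝔾 𝔾' : Set (List S.I)} (h : S.Big k 𝔾) (hs : 𝔾 ⊆ 𝔾') : S.Big k 𝔾' := by
  induction k generalizing 𝔾 𝔾' with
  | zero => exact hs h
  | succ k ih =>
    obtain ⟨P, hP⟩ := h
    exact ⟨P, fun i hi => ih (hP i hi) (fun s hs' => hs hs')⟩

theorem Big.all {k : ℕ} {𝔾 : Set (List S.I)} (h : ∀ s, s ∈ 𝔾) : S.Big k 𝔾 := by
  induction k generalizing 𝔾 with
  | zero => exact h _
  | succ k ih => exact ⟨∅, fun i _ => ih (fun s => h _)⟩

theorem Big.inter {k : ℕ} {𝔾 𝔾' : Set (List S.I)} (h : S.Big k 𝔾) (h' : S.Big k 𝔾') :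
    S.Big k (𝔾 ∩ 𝔾') := by
  classical
  induction k generalizing 𝔾 𝔾' with
  | zero => exact ⟨h, h'⟩
  | succ k ih =>
    obtain ⟨P, hP⟩ := h
    obtain ⟨P', hP'⟩ := h'
    refine ⟨P ∪ P', fun i hi => ?_⟩
    exact ih (hP i fun p hp => hi p (Finset.mem_union_left _ hp))
      (hP' i fun p hp => hi p (Finset.mem_union_right _ hp))

theorem Big.biInter {k : ℕ} {α : Type*} {A : Set α} (hA : A.Finite) {𝔾 : α → Set (List S.I)}
    (h : ∀ a ∈ A, S.Big k (𝔾 a)) : S.Big k {s | ∀ a ∈ A, s ∈ 𝔾 a} := by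
  induction A, hA using Set.Finite.induction_on with
  | empty => exact Big.all S (fun s a ha => absurd ha (notMem_empty a))
  | @insert a A _ _ ih =>
    refine Big.mono S (Big.inter S (h a (mem_insert _ _)) (ih fun b hb => h b (mem_insert_of_mem _ hb))) ?_
    rintro s ⟨h1, h2⟩ b (rfl | hb)
    · exact h1
    · exact h2 b hb

/-- matching of a sequence of indices with a sequence of members of the cover -/
def Mt (L : List S.𝕍) (s : List S.I) : Prop := List.Forall₂ (fun v i => i ∈ S.H v) L s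

theorem Big.exists {k : ℕ} {𝔾 : Set (List S.I)} (h : S.Big k 𝔾) (L : List S.𝕍)
    (hL : L.length = k) : ∃ s ∈ 𝔾, S.Mt L s := by
  induction k generalizing 𝔾 L with
  | zero =>
    rw [List.length_eq_zero_iff] at hL
    subst hL
    exact ⟨[], h, List.Forall₂.nil⟩
  | succ k ih =>
    obtain ⟨P, hP⟩ := h
    match L, hL with
    | v :: L, hL =>
      obtain ⟨i, hi, hi2⟩ := S.wpf v P
      obtain ⟨s, hs, hs2⟩ := ih (hP i hi2) L (by simpa using hL)
      exact ⟨i :: s, hs, List.Forall₂.cons hi hs2⟩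

theorem countable_mem (p : X × X) : {v | p ∈ S.V v}.Countable := by
  have := S.cI
  have h : {v | p ∈ S.V v} ⊆ ⋃ i : S.I, ⋃ _ : S.Gd i p, {w | i ∈ S.H w ∧ p ∈ S.V w} := by
    intro v hv
    obtain ⟨i, hi, hi2⟩ := S.wpf v {p}
    simp only [mem_iUnion]
    exact ⟨i, hi2 p (Finset.mem_singleton_self p), hi, hv⟩
  refine Set.Countable.mono h (countable_iUnion fun i => countable_iUnion fun hi => ?_)
  exact Set.Finite.countable hi

/-- the set attached to an optional member of the cover -/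
def Vo : Option S.𝕍 → Set (X × X)
  | none => ∅
  | some v => S.V v

/-- Existence of countable sets of approximating pairs. -/
theorem exists_C (A : Finset S.𝕍) (o : Option S.𝕍) : ∃ C : Set (X × X), C.Countable ∧
    C ⊆ (S.Vo o)ᶜ ∧ ∀ p ∉ S.Vo o, ∀ ε > 0, ∃ q ∈ C, ∀ u ∈ A,
      |S.g u q.1 - S.g u p.1| < ε ∧ |S.g u q.2 - S.g u p.2| < ε := by
  classical
  let f : X × X → (A → ℝ × ℝ) := fun p u => (S.g u p.1, S.g u p.2)
  obtain ⟨D, hD1, hD2, hD3⟩ : ∃ D : Set (A → ℝ × ℝ), D ⊆ f '' (S.Vo o)ᶜ ∧ D.Countable ∧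
      f '' (S.Vo o)ᶜ ⊆ closure D := by
    obtain ⟨D, h1, h2, h3⟩ := (TopologicalSpace.IsSeparable.of_separableSpace
      (f '' (S.Vo o)ᶜ)).exists_countable_dense_subset
    exact ⟨D, h1, h2, h3⟩
  have hsel : ∀ d : D, ∃ q : X × X, q ∈ (S.Vo o)ᶜ ∧ f q = d := fun d => hD1 d.2
  choose q hq1 hq2 using hsel
  have hDc : Countable D := hD2.to_subtype
  refine ⟨range q, countable_range q, ?_, ?_⟩
  · rintro _ ⟨d, rfl⟩
    exact hq1 d
  · intro p hp ε hε
    have h1 : f p ∈ closure D := hD3 ⟨p, hp, rfl⟩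
    rw [Metric.mem_closure_iff] at h1
    obtain ⟨d, hd, hd2⟩ := h1 ε hε
    refine ⟨q ⟨d, hd⟩, ⟨⟨d, hd⟩, rfl⟩, fun u hu => ?_⟩
    have h2 := (dist_pi_lt_iff hε).mp hd2 ⟨u, hu⟩
    have h3 := hq2 ⟨d, hd⟩
    simp only at h3
    rw [← h3, Prod.dist_eq, max_lt_iff] at h2
    simp only [f, Real.dist_eq] at h2
    rw [abs_sub_comm (S.g u (q ⟨d, hd⟩).1), abs_sub_comm (S.g u (q ⟨d, hd⟩).2)]
    exact h2

/-- the chosen countable sets of approximating pairs -/
noncomputable def C (A : Finset S.𝕍) (o : Option S.𝕍) : Set (X × X) := (S.exists_C A o).choose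

theorem C_countable (A : Finset S.𝕍) (o : Option S.𝕍) : (S.C A o).Countable :=
  (S.exists_C A o).choose_spec.1

theorem C_sub (A : Finset S.𝕍) (o : Option S.𝕍) : S.C A o ⊆ (S.Vo o)ᶜ :=
  (S.exists_C A o).choose_spec.2.1

theorem C_dense (A : Finset S.𝕍) (o : Option S.𝕍) : ∀ p ∉ S.Vo o, ∀ ε > 0, ∃ q ∈ S.C A o,
    ∀ u ∈ A, |S.g u q.1 - S.g u p.1| < ε ∧ |S.g u q.2 - S.g u p.2| < ε :=
  (S.exists_C A o).choose_spec.2.2

/-- the operations under which we close -/
noncomputable def op (F : Finset (X ⊕ S.𝕍)) : Set (X ⊕ S.𝕍) :=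
  (⋃ a ∈ {a : X | Sum.inl a ∈ F}, ⋃ b ∈ {b : X | Sum.inl b ∈ F}, Sum.inr '' {v | (a, b) ∈ S.V v}) ∪
  (⋃ A ∈ {A : Finset S.𝕍 | ∀ v ∈ A, Sum.inr v ∈ F}, ⋃ o ∈ {o : Option S.𝕍 | ∀ v ∈ o, Sum.inr v ∈ F},
    (fun p : X × X => Sum.inl p.1) '' (S.C A o) ∪ (fun p : X × X => Sum.inl p.2) '' (S.C A o))

theorem op_countable (F : Finset (X ⊕ S.𝕍)) : (S.op F).Countable := by
  classical
  have fl : {a : X | (Sum.inl a : X ⊕ S.𝕍) ∈ F}.Finite :=
    F.finite_toSet.preimage (Sum.inl_injective.injOn)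
  have fr : {v : S.𝕍 | (Sum.inr v : X ⊕ S.𝕍) ∈ F}.Finite :=
    F.finite_toSet.preimage (Sum.inr_injective.injOn)
  have fA : {A : Finset S.𝕍 | ∀ v ∈ A, (Sum.inr v : X ⊕ S.𝕍) ∈ F}.Finite := by
    have : {A : Finset S.𝕍 | ∀ v ∈ A, (Sum.inr v : X ⊕ S.𝕍) ∈ F} ⊆
        (fr.toFinset.powerset : Set (Finset S.𝕍)) := by
      intro A hA
      rw [Finset.mem_coe, Finset.mem_powerset]
      intro v hv
      rw [Finite.mem_toFinset]
      exact hA v hv
    exact (Finset.finite_toSet _).subset this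
  have fo : {o : Option S.𝕍 | ∀ v ∈ o, (Sum.inr v : X ⊕ S.𝕍) ∈ F}.Finite := by
    have : {o : Option S.𝕍 | ∀ v ∈ o, (Sum.inr v : X ⊕ S.𝕍) ∈ F} ⊆
        insert none (some '' {v : S.𝕍 | (Sum.inr v : X ⊕ S.𝕍) ∈ F}) := by
      rintro (_ | v) h
      · exact mem_insert _ _
      · exact mem_insert_of_mem _ ⟨v, h v rfl, rfl⟩
    exact ((fr.image some).insert none).subset this
  apply Countable.union
  · exact fl.countable.biUnion fun a _ => fl.countable.biUnion fun b _ =>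
      (S.countable_mem (a, b)).image _
  · exact fA.countable.biUnion fun A _ => fo.countable.biUnion fun o _ =>
      ((S.C_countable A o).image _).union ((S.C_countable A o).image _)

/-- closed sets -/
def Cl (N : Set (X ⊕ S.𝕍)) : Prop := FinCl.Cl S.op N

/-- the points of a closed set -/
def D (N : Set (X ⊕ S.𝕍)) : Set X := {a | Sum.inl a ∈ N}

variable {S}

theorem Cl.mem_V {N : Set (X ⊕ S.𝕍)} (hN : S.Cl N) {a b : X} (ha : a ∈ S.D N) (hb : b ∈ S.D N)
    {v : S.𝕍} (hv : (a, b) ∈ S.V v) : Sum.inr v ∈ N := by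
  classical
  apply hN {Sum.inl a, Sum.inl b}
  · intro x hx
    simp only [Finset.coe_insert, Finset.coe_singleton, mem_insert_iff, mem_singleton_iff] at hx
    rcases hx with rfl | rfl
    · exact ha
    · exact hb
  · left
    simp only [mem_iUnion]
    exact ⟨a, by simp, b, by simp, v, hv, rfl⟩

theorem Cl.mem_C {N : Set (X ⊕ S.𝕍)} (hN : S.Cl N) {A : Finset S.𝕍} (hA : ∀ v ∈ A, Sum.inr v ∈ N)
    {o : Option S.𝕍} (ho : ∀ v ∈ o, Sum.inr v ∈ N) {p : X × X} (hp : p ∈ S.C A o) :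
    p.1 ∈ S.D N ∧ p.2 ∈ S.D N := by
  classical
  let F : Finset (X ⊕ S.𝕍) := A.image Sum.inr ∪ (o.toFinset.image Sum.inr)
  have hF : (F : Set (X ⊕ S.𝕍)) ⊆ N := by
    intro x hx
    simp only [F, Finset.coe_union, Finset.coe_image, mem_union, mem_image, Finset.mem_coe,
      Option.mem_toFinset] at hx
    rcases hx with ⟨v, hv, rfl⟩ | ⟨v, hv, rfl⟩
    · exact hA v hv
    · exact ho v hv
  have hA' : A ∈ {A : Finset S.𝕍 | ∀ v ∈ A, Sum.inr v ∈ F} := by
    intro v hv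
    exact Finset.mem_union_left _ (Finset.mem_image_of_mem _ hv)
  have ho' : o ∈ {o : Option S.𝕍 | ∀ v ∈ o, Sum.inr v ∈ F} := by
    intro v hv
    exact Finset.mem_union_right _ (Finset.mem_image_of_mem _ (Option.mem_toFinset.mpr hv))
  constructor
  · apply hN F hF
    right
    simp only [mem_iUnion]
    exact ⟨A, hA', o, ho', Or.inl ⟨p, hp, rfl⟩⟩
  · apply hN F hF
    right
    simp only [mem_iUnion]
    exact ⟨A, hA', o, ho', Or.inr ⟨p, hp, rfl⟩⟩

theorem Cl.mem_V_closure {N : Set (X ⊕ S.𝕍)} (hN : S.Cl N) {a b : X} (ha : a ∈ closure (S.D N))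
    (hb : b ∈ closure (S.D N)) {v : S.𝕍} (hv : (a, b) ∈ S.V v) : Sum.inr v ∈ N := by
  have h1 : (a, b) ∈ closure (S.D N ×ˢ S.D N) := by
    rw [closure_prod_eq]; exact ⟨ha, hb⟩
  obtain ⟨⟨c, d⟩, hcd, hc, hd⟩ := mem_closure_iff.mp h1 _ (S.hV v) hv
  exact hN.mem_V hc hd hcd

/-- Points of the closure are determined by the functions in the closed set. -/
theorem Cl.uniq {N : Set (X ⊕ S.𝕍)} (hN : S.Cl N) {a b : X} (ha : a ∈ closure (S.D N))
    (hb : b ∈ closure (S.D N)) (h : ∀ v, Sum.inr v ∈ N → S.g v a = S.g v b) : a = b := by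
  by_contra hab
  obtain ⟨v, hv⟩ := S.cover a b hab
  have := h v (hN.mem_V_closure ha hb hv)
  rw [S.g0 v a b hv, S.g1 v a b hv] at this
  exact zero_ne_one this

variable [CompactSpace X] [T2Space X]

theorem Cl.exists_pair {N : Set (X ⊕ S.𝕍)} (hN : S.Cl N) (o : Option S.𝕍)
    (ho : ∀ v ∈ o, Sum.inr v ∈ N) (p : X × X) (hp : p ∉ S.Vo o) :
    ∃ q : X × X, q.1 ∈ closure (S.D N) ∧ q.2 ∈ closure (S.D N) ∧ q ∉ S.Vo o ∧
      ∀ v, Sum.inr v ∈ N → S.g v q.1 = S.g v p.1 ∧ S.g v q.2 = S.g v p.2 := by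
  classical
  have hVo : IsOpen (S.Vo o) := by
    rcases o with _ | v
    · exact isOpen_empty
    · exact S.hV v
  let K : Set (X × X) := (closure (S.D N) ×ˢ closure (S.D N)) \ S.Vo o
  have hK : IsCompact K := ((isClosed_closure.prod isClosed_closure).sdiff hVo).isCompact
  let Z : {v : S.𝕍 // Sum.inr v ∈ N} → Set (X × X) := fun v =>
    {q | S.g v q.1 = S.g v p.1 ∧ S.g v q.2 = S.g v p.2}
  have hZ : ∀ v, IsClosed (Z v) := by
    intro v
    have := S.hg v.1
    exact (isClosed_eq (by fun_prop) continuous_const).inter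
      (isClosed_eq (by fun_prop) continuous_const)
  have hne : (K ∩ ⋂ v, Z v).Nonempty := by
    apply hK.inter_iInter_nonempty Z hZ
    intro t
    -- exactness by compactness
    let G : X × X → (t → ℝ × ℝ) := fun q v => (S.g v.1.1 q.1, S.g v.1.1 q.2)
    have hG : Continuous G := by
      apply continuous_pi
      intro v
      have := S.hg v.1.1
      fun_prop
    have hGK : IsClosed (G '' K) := (hK.image hG).isClosed
    have hmem : G p ∈ G '' K := by
      rw [← hGK.closure_eq, Metric.mem_closure_iff]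
      intro ε hε
      obtain ⟨q, hq, hq2⟩ := S.C_dense (t.image Subtype.val) o p hp (ε / 2) (by positivity)
      have hq3 := hN.mem_C (A := t.image Subtype.val) (by
        intro v hv
        obtain ⟨w, _, rfl⟩ := Finset.mem_image.mp hv
        exact w.2) ho hq
      refine ⟨G q, ⟨q, ⟨⟨subset_closure hq3.1, subset_closure hq3.2⟩, S.C_sub _ _ hq⟩, rfl⟩, ?_⟩
      refine lt_of_le_of_lt ((dist_pi_le_iff (by positivity : (0:ℝ) ≤ ε/2)).mpr fun v => ?_)
        (half_lt_self hε)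
      have h5 := hq2 v.1.1 (Finset.mem_image_of_mem _ v.2)
      rw [Prod.dist_eq]
      apply max_le
      · rw [Real.dist_eq, abs_sub_comm]; exact h5.1.le
      · rw [Real.dist_eq, abs_sub_comm]; exact h5.2.le
    obtain ⟨q, hqK, hq⟩ := hmem
    refine ⟨q, hqK, ?_⟩
    simp only [mem_iInter]
    intro v hv
    have := congrFun hq ⟨v, hv⟩
    simp only [G, Prod.mk.injEq] at this
    exact this
  obtain ⟨q, ⟨⟨hq1, hq2⟩, hq3⟩, hq4⟩ := hne
  refine ⟨q, hq1, hq2, hq3, fun v hv => ?_⟩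
  exact mem_iInter.mp hq4 ⟨v, hv⟩

theorem Cl.exists_r {N : Set (X ⊕ S.𝕍)} (hN : S.Cl N) : ∀ x : X, ∃ y ∈ closure (S.D N),
    ∀ v, Sum.inr v ∈ N → S.g v y = S.g v x := by
  intro x
  obtain ⟨q, h1, _, _, h4⟩ := hN.exists_pair none (by simp) (x, x) (fun h => h)
  exact ⟨q.1, h1, fun v hv => (h4 v hv).1⟩

/-- the retraction -/
noncomputable def r {N : Set (X ⊕ S.𝕍)} (hN : S.Cl N) (x : X) : X := (hN.exists_r x).choose

theorem r_mem {N : Set (X ⊕ S.𝕍)} (hN : S.Cl N) (x : X) : r hN x ∈ closure (S.D N) :=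
  (hN.exists_r x).choose_spec.1

theorem g_r {N : Set (X ⊕ S.𝕍)} (hN : S.Cl N) (x : X) {v : S.𝕍} (hv : Sum.inr v ∈ N) :
    S.g v (r hN x) = S.g v x :=
  (hN.exists_r x).choose_spec.2 v hv

theorem r_unique {N : Set (X ⊕ S.𝕍)} (hN : S.Cl N) {x a : X} (ha : a ∈ closure (S.D N))
    (h : ∀ v, Sum.inr v ∈ N → S.g v a = S.g v x) : a = r hN x :=
  hN.uniq ha (r_mem hN x) fun v hv => (h v hv).trans (g_r hN x hv).symm

theorem r_fix {N : Set (X ⊕ S.𝕍)} (hN : S.Cl N) {a : X} (ha : a ∈ closure (S.D N)) :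
    r hN a = a := (r_unique hN ha fun _ _ => rfl).symm

theorem r_eq_iff {N : Set (X ⊕ S.𝕍)} (hN : S.Cl N) {x y : X} :
    r hN x = r hN y ↔ ∀ v, Sum.inr v ∈ N → S.g v x = S.g v y := by
  constructor
  · intro h v hv
    rw [← g_r hN x hv, ← g_r hN y hv, h]
  · intro h
    apply r_unique hN (r_mem hN x)
    intro v hv
    rw [g_r hN x hv, h v hv]

theorem continuous_r {N : Set (X ⊕ S.𝕍)} (hN : S.Cl N) : Continuous (r hN) := by
  let G : closure (S.D N) → ({v : S.𝕍 // Sum.inr v ∈ N} → ℝ) := fun a v => S.g v a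
  have hG : Continuous G := by
    apply continuous_pi
    intro v
    have := S.hg v.1
    fun_prop
  have hGi : Function.Injective G := by
    intro a b hab
    apply Subtype.ext
    exact hN.uniq a.2 b.2 fun v hv => congrFun hab ⟨v, hv⟩
  have : CompactSpace (closure (S.D N)) := isCompact_iff_compactSpace.mp isClosed_closure.isCompact
  have hemb : IsEmbedding G := (hG.isClosedEmbedding hGi).isEmbedding
  have h2 : Continuous (fun x => (⟨r hN x, r_mem hN x⟩ : closure (S.D N))) := by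
    rw [hemb.continuous_iff]
    apply continuous_pi
    intro v
    have : (fun x => (G ∘ fun x => (⟨r hN x, r_mem hN x⟩ : closure (S.D N))) x v) =
        fun x => S.g v x := by
      funext x
      exact g_r hN x v.2
    rw [this]
    exact S.hg v.1
  exact continuous_subtype_val.comp h2

/-- stability of the members of the cover -/
theorem V_of_r {N : Set (X ⊕ S.𝕍)} (hN : S.Cl N) {x y : X} {v : S.𝕍} (hv : Sum.inr v ∈ N)
    (h : (r hN x, r hN y) ∈ S.V v) : (x, y) ∈ S.V v := by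
  by_contra hcon
  obtain ⟨q, h1, h2, h3, h4⟩ := hN.exists_pair (some v) (by
    intro w hw
    rw [Option.mem_some_iff] at hw
    rw [← hw]; exact hv) (x, y) hcon
  have e1 : q.1 = r hN x := r_unique hN h1 fun w hw => (h4 w hw).1
  have e2 : q.2 = r hN y := r_unique hN h2 fun w hw => (h4 w hw).2
  apply h3
  have : q = (r hN x, r hN y) := Prod.ext e1 e2
  rw [this]
  exact h

end Sys

end Pool.Agent.H902R2.Sys
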