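import Mathlib
import Pool.Agent.H902R2.Sys

set_option autoImplicit false
set_option linter.dupNamespace false
set_option linter.unusedSectionVars false

/-!
# Step 1: making the members of the cover cozero sets
-/

open Set Topology

namespace Pool.Agent.H902R2.Sys

universe u

variable {X : Type u} [TopologicalSpace X] [CompactSpace X] [T2Space X] (S : Sys X)

namespace Sys

/-- the inductive statement -/
def S1 (N : Set (X ⊕ S.𝕍)) : Prop :=
  ∃ (𝔼 : Type u) (e : 𝔼 → X × X → ℝ) (vv : 𝔼 → S.𝕍) (code : 𝔼 → List S.𝕍) (tag : 𝔼 → ℕ),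
    (∀ E, Continuous (e E)) ∧ (∀ E p, e E p ≠ 0 → p ∈ S.V (vv E)) ∧
    (∀ E, Sum.inr (vv E) ∈ N) ∧
    (∀ x y, (∃ v, Sum.inr v ∈ N ∧ S.g v x ≠ S.g v y) → ∃ E, e E (x, y) ≠ 0) ∧
    ∀ p k m, S.Big k {s | {E | tag E = m ∧ S.Mt (code E) s ∧ e E p ≠ 0}.Finite}

theorem not_mem_diag (v : S.𝕍) (x : X) : (x, x) ∉ S.V v := by
  intro h
  have h0 := S.g0 v x x h
  rw [S.g1 v x x h] at h0
  exact one_ne_zero h0

theorem S1_countable (N : Set (X ⊕ S.𝕍)) (hN : S.Cl N) (hc : N.Countable) : S.S1 N := by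
  classical
  let 𝒰 : Type u := {v : S.𝕍 // (Sum.inr v : X ⊕ S.𝕍) ∈ N}
  have h𝒰 : Countable 𝒰 := by
    have : Countable N := hc.to_subtype
    let j : 𝒰 → N := fun v => ⟨Sum.inr v.1, v.2⟩
    have hj : Function.Injective j := by
      intro a b hab
      have := congrArg Subtype.val hab
      exact Subtype.ext (Sum.inr_injective this)
    exact hj.countable
  obtain ⟨enc, henc⟩ := exists_injective_nat 𝒰
  let G : X → (𝒰 → ℝ) := fun x v => S.g v.1 x
  have hG : Continuous G := continuous_pi fun v => S.hg v.1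
  let GG : X × X → (𝒰 → ℝ) × (𝒰 → ℝ) := fun p => (G p.1, G p.2)
  have hGG : Continuous GG := (hG.comp continuous_fst).prodMk (hG.comp continuous_snd)
  let _ : MetricSpace ((𝒰 → ℝ) × (𝒰 → ℝ)) := TopologicalSpace.metrizableSpaceMetric _
  let Cc : 𝒰 → Set ((𝒰 → ℝ) × (𝒰 → ℝ)) := fun v =>
    GG '' ((closure (S.D N) ×ˢ closure (S.D N)) \ S.V v.1)
  have hCc : ∀ v, IsClosed (Cc v) := fun v =>
    ((((isClosed_closure.prod isClosed_closure).sdiff (S.hV v.1)).isCompact).image hGG).isClosed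
  refine ⟨𝒰, fun v p => Metric.infDist (GG p) (Cc v), fun v => v.1, fun _ => [], enc,
    fun v => ?_, fun v p hp => ?_, fun v => v.2, fun x y hxy => ?_, fun p k m => ?_⟩
  · exact (Metric.continuous_infDist_pt _).comp hGG
  · by_contra hcon
    apply hp
    obtain ⟨q, h1, h2, h3, h4⟩ := hN.exists_pair (some v.1) (by
      intro w hw
      rw [Option.mem_some_iff] at hw
      rw [← hw]; exact v.2) p hcon
    apply Metric.infDist_zero_of_mem
    refine ⟨q, ⟨⟨h1, h2⟩, h3⟩, ?_⟩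
    apply Prod.ext
    · funext u
      exact (h4 u.1 u.2).1
    · funext u
      exact (h4 u.1 u.2).2
  · have hne : r hN x ≠ r hN y := by
      intro h
      rw [r_eq_iff] at h
      obtain ⟨v, hv, hv2⟩ := hxy
      exact hv2 (h v hv)
    obtain ⟨v, hv⟩ := S.cover _ _ hne
    have hvN : Sum.inr v ∈ N := hN.mem_V_closure (r_mem hN x) (r_mem hN y) hv
    refine ⟨⟨v, hvN⟩, fun h0 => ?_⟩
    have hnonempty : (Cc ⟨v, hvN⟩).Nonempty :=
      ⟨_, (r hN x, r hN x), ⟨⟨r_mem hN x, r_mem hN x⟩, S.not_mem_diag v _⟩, rfl⟩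
    have hmem := ((hCc ⟨v, hvN⟩).mem_iff_infDist_zero hnonempty).mpr h0
    obtain ⟨q, ⟨⟨hq1, hq2⟩, hq3⟩, hq4⟩ := hmem
    have e1 : q.1 = r hN x := by
      apply r_unique hN hq1
      intro w hw
      exact congrFun (congrArg Prod.fst hq4) ⟨w, hw⟩
    have e2 : q.2 = r hN y := by
      apply r_unique hN hq2
      intro w hw
      exact congrFun (congrArg Prod.snd hq4) ⟨w, hw⟩
    apply hq3
    have : q = (r hN x, r hN y) := Prod.ext e1 e2
    rw [this]
    exact hv
  · apply Big.all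
    intro s
    apply Set.Subsingleton.finite
    rintro a ⟨ha, -⟩ b ⟨hb, -⟩
    exact henc (ha.trans hb.symm)

theorem S1_chain (ι : Type u) [LinearOrder ι] [WellFoundedLT ι] (c : ι → Set (X ⊕ S.𝕍))
    (h : ∀ i, S.S1 (c i)) : S.S1 (⋃ i, c i) := by
  classical
  choose 𝔼 e vv code tag h1 h2 h3 h4 h5 using h
  refine ⟨Σ i, 𝔼 i, fun x => if ∀ j < x.1, Sum.inr (vv x.1 x.2) ∉ c j then e x.1 x.2 else 0,
    fun x => vv x.1 x.2, fun x => vv x.1 x.2 :: code x.1 x.2, fun x => tag x.1 x.2,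
    ?_, ?_, ?_, ?_, ?_⟩
  · rintro ⟨i, E⟩
    simp only
    split_ifs
    · exact h1 i E
    · exact continuous_zero
  · rintro ⟨i, E⟩ p hp
    simp only at hp ⊢
    split_ifs at hp with h
    · exact h2 i E p hp
    · exact absurd rfl hp
  · rintro ⟨i, E⟩
    exact mem_iUnion.mpr ⟨i, h3 i E⟩
  · rintro x y ⟨v, hv, hv2⟩
    obtain ⟨i0, hi0⟩ := mem_iUnion.mp hv
    obtain ⟨ξ, ⟨w, hw, hw2⟩, hmin⟩ := WellFounded.has_min (wellFounded_lt (α := ι))
      {i | ∃ v, Sum.inr v ∈ c i ∧ S.g v x ≠ S.g v y} ⟨i0, v, hi0, hv2⟩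
    obtain ⟨E, hE⟩ := h4 ξ x y ⟨w, hw, hw2⟩
    refine ⟨⟨ξ, E⟩, ?_⟩
    simp only
    rw [if_pos]
    · exact hE
    · intro j hj hcj
      apply hmin j _ hj
      refine ⟨vv ξ E, hcj, ?_⟩
      have h6 := h2 ξ E _ hE
      rw [S.g0 _ _ _ h6, S.g1 _ _ _ h6]
      exact zero_ne_one
  · intro p k m
    rcases k with _ | k
    · change Set.Finite _
      refine Set.finite_empty.subset ?_
      rintro ⟨i, E⟩ ⟨-, hb, -⟩
      simp only at hb
      cases hb
    · refine ⟨{p}, fun i hi => ?_⟩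
      have hB := hi p (Finset.mem_singleton_self p)
      have key : ∀ w ∈ {w | i ∈ S.H w ∧ p ∈ S.V w}, S.Big k {s | {x : Σ i, 𝔼 i | vv x.1 x.2 = w ∧
          (∀ j < x.1, Sum.inr (vv x.1 x.2) ∉ c j) ∧ tag x.1 x.2 = m ∧ S.Mt (code x.1 x.2) s ∧
          e x.1 x.2 p ≠ 0}.Finite} := by
        intro w _
        by_cases hw : ∃ ξ, (Sum.inr w : X ⊕ S.𝕍) ∈ c ξ ∧ ∀ j < ξ, (Sum.inr w : X ⊕ S.𝕍) ∉ c j
        · obtain ⟨ξ, hξ, hξ2⟩ := hw
          refine Big.mono S (h5 ξ p k m) fun s hs => ?_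
          refine (Set.Finite.image (Sigma.mk ξ) hs).subset ?_
          rintro ⟨i, E⟩ ⟨ha, hb, hc, hd, he⟩
          simp only at ha hb hc hd he
          have : i = ξ := by
            rcases lt_trichotomy i ξ with hlt | heq | hgt
            · exact absurd (ha ▸ h3 i E) (hξ2 i hlt)
            · exact heq
            · exact absurd hξ (ha ▸ hb ξ hgt)
          subst this
          exact ⟨E, ⟨hc, hd, he⟩, rfl⟩
        · apply Big.all
          intro s
          refine Set.finite_empty.subset ?_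
          rintro ⟨i, E⟩ ⟨ha, hb, -⟩
          simp only at ha hb
          exact (hw ⟨i, ha ▸ h3 i E, ha ▸ hb⟩).elim
      refine Big.mono S (Big.biInter S hB key) fun s hs => ?_
      have hfin := Set.Finite.biUnion hB hs
      refine hfin.subset ?_
      rintro ⟨i', E⟩ ⟨ha, hb, hc⟩
      simp only at ha hb hc
      rw [Mt, List.forall₂_cons] at hb
      have hborn : ∀ j < i', Sum.inr (vv i' E) ∉ c j := by
        by_contra hcon
        rw [if_neg hcon] at hc
        exact hc rfl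
      rw [if_pos hborn] at hc
      simp only [mem_iUnion]
      exact ⟨vv i' E, ⟨hb.1, h2 i' E p hc⟩, rfl, hborn, ha, hb.2, hc⟩

theorem S1_all (N : Set (X ⊕ S.𝕍)) (hN : S.Cl N) : S.S1 N :=
  FinCl.closed_induction S.op S.op_countable S.S1 (fun N h1 h2 => S.S1_countable N h1 h2)
    (fun ι _ _ c _ _ _ h => S.S1_chain ι c h) N hN

theorem cl_univ : S.Cl (univ : Set (X ⊕ S.𝕍)) := fun _ _ => subset_univ _

include S in
/-- There is a system whose members are cozero sets. -/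
theorem exists_coz : ∃ (S' : Sys X) (e : S'.𝕍 → X × X → ℝ), (∀ v, Continuous (e v)) ∧
    ∀ v p, p ∈ S'.V v ↔ e v p ≠ 0 := by
  classical
  obtain ⟨𝔼, e, vv, code, tag, h1, h2, h3, h4, h5⟩ := S.S1_all univ S.cl_univ
  have hcI := S.cI
  let S' : Sys X :=
    { 𝕍 := 𝔼
      I := ℕ × List S.I
      cI := inferInstance
      V := fun E => {p | e E p ≠ 0}
      hV := fun E => isOpen_ne_fun (h1 E) continuous_const
      g := fun E => S.g (vv E)
      hg := fun E => S.hg (vv E)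
      g0 := fun E x y h => S.g0 _ x y (h2 E _ h)
      g1 := fun E x y h => S.g1 _ x y (h2 E _ h)
      cover := fun x y hxy => by
        obtain ⟨v, hv⟩ := S.cover x y hxy
        refine h4 x y ⟨v, mem_univ _, ?_⟩
        rw [S.g0 _ _ _ hv, S.g1 _ _ _ hv]
        exact zero_ne_one
      H := fun E => {x | tag E = x.1 ∧ S.Mt (code E) x.2}
      wpf := fun E P => by
        have hb : S.Big (code E).length {s | ∀ p ∈ (P : Set (X × X)), s ∈
            {s | {E' | tag E' = tag E ∧ S.Mt (code E') s ∧ e E' p ≠ 0}.Finite}} :=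
          Big.biInter S P.finite_toSet fun p _ => h5 p _ (tag E)
        obtain ⟨s, hs, hs2⟩ := Big.exists S hb (code E) rfl
        refine ⟨(tag E, s), ⟨rfl, hs2⟩, fun p hp => ?_⟩
        refine (hs p hp).subset ?_
        rintro w ⟨⟨ha, hb⟩, hc⟩
        exact ⟨ha, hb, hc⟩ }
  exact ⟨S', e, h1, fun v p => Iff.rfl⟩

end Sys

end Pool.Agent.H902R2.Sys
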