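import Mathlib
import Pool.Agent.H902R2.Sys
import Pool.Agent.H902R2.Step1

set_option autoImplicit false
set_option linter.dupNamespace false
set_option linter.unusedSectionVars false

/-!
# Step 2: a separating family of functions on the space itself
-/

open Set Topology

namespace Pool.Agent.H902R2.Sys

universe u

variable {X : Type u} [TopologicalSpace X] [CompactSpace X] [T2Space X] (S : Sys X)

namespace Sys

theorem D_mono {N N' : Set (X ⊕ S.𝕍)} (h : N ⊆ N') : S.D N ⊆ S.D N' := fun _ ha => h ha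

/-- the inductive statement -/
def S2 (N : Set (X ⊕ S.𝕍)) : Prop :=
  ∃ (𝕎 : Type u) (f : 𝕎 → X → ℝ) (code : 𝕎 → List S.𝕍) (tag : 𝕎 → ℕ),
    (∀ W, Continuous (f W)) ∧
    (∀ x y, (∃ v, Sum.inr v ∈ N ∧ S.g v x ≠ S.g v y) → ∃ W, f W x ≠ f W y) ∧
    ∀ x k m, S.Big k {s | {W | tag W = m ∧ S.Mt (code W) s ∧ f W x ≠ 0}.Finite}

theorem S2_countable (N : Set (X ⊕ S.𝕍)) (hc : N.Countable) : S.S2 N := by
  classical
  let 𝒰 : Type u := {v : S.𝕍 // (Sum.inr v : X ⊕ S.𝕍) ∈ N}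
  have h𝒰 : Countable 𝒰 := by
    have : Countable N := hc.to_subtype
    let j : 𝒰 → N := fun v => ⟨Sum.inr v.1, v.2⟩
    have hj : Function.Injective j := by
      intro a b hab
      have := congrArg Subtype.val hab
      exact Subtype.ext (Sum.inr_injective this)
    exact hj.countable
  obtain ⟨enc, henc⟩ := exists_injective_nat 𝒰
  refine ⟨𝒰, fun v => S.g v.1, fun _ => [], enc, fun v => S.hg v.1, ?_, fun x k m => ?_⟩
  · rintro x y ⟨v, hv, hv2⟩
    exact ⟨⟨v, hv⟩, hv2⟩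
  · apply Big.all
    intro s
    apply Set.Subsingleton.finite
    rintro a ⟨ha, -⟩ b ⟨hb, -⟩
    exact henc (ha.trans hb.symm)

section Chain

variable {κ : Type u} [LinearOrder κ] [OrderBot κ] [WellFoundedLT κ]
  (d : κ → Set (X ⊕ S.𝕍))

/-- the closed set just before `ξ` -/
def Nl (ξ : κ) : Set (X ⊕ S.𝕍) := FinCl.cls S.op (⋃ η : Iio ξ, d η.1)

theorem cl_Nl (ξ : κ) : S.Cl (S.Nl d ξ) := FinCl.cl_cls _ _

theorem Nl_sub (hd : ∀ η, S.Cl (d η)) (hm : Monotone d) (ξ : κ) : S.Nl d ξ ⊆ d ξ :=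
  FinCl.cls_subset _ (iUnion_subset fun η => hm (le_of_lt η.2)) (hd ξ)

theorem sub_Nl {η ξ : κ} (h : η < ξ) : d η ⊆ S.Nl d ξ :=
  (subset_iUnion (fun η : Iio ξ => d η.1) ⟨η, h⟩).trans (FinCl.subset_cls _ _)

theorem Nl_eq (hd : ∀ η, S.Cl (d η)) (hm : Monotone d) {ξ : κ} (hξ : ξ ≠ ⊥) :
    S.Nl d ξ = ⋃ η : Iio ξ, d η.1 := by
  have hne : Nonempty (Iio ξ) := ⟨⟨⊥, bot_lt_iff_ne_bot.mpr hξ⟩⟩
  apply Subset.antisymm _ (FinCl.subset_cls _ _)
  apply FinCl.cls_subset _ (Subset.refl _)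
  apply FinCl.cl_iUnion_directed
  · intro a b
    exact ⟨max a b, hm (le_max_left a b), hm (le_max_right a b)⟩
  · intro i
    exact hd i.1

theorem cont (hd : ∀ η, S.Cl (d η)) (hm : Monotone d) {ξ : κ} (hξ : ξ ≠ ⊥) (x : X) {O : Set X}
    (hO : IsOpen O) (hx : r (S.cl_Nl d ξ) x ∈ O) : ∃ η < ξ, r (hd η) x ∈ O := by
  classical
  by_contra hcon
  push Not at hcon
  have hne : Nonempty (Iio ξ) := ⟨⟨⊥, bot_lt_iff_ne_bot.mpr hξ⟩⟩
  let K : Set X := closure (S.D (S.Nl d ξ)) \ O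
  have hK : IsCompact K := (isClosed_closure.sdiff hO).isCompact
  let Z : {v : S.𝕍 // Sum.inr v ∈ S.Nl d ξ} → Set X := fun v => {z | S.g v.1 z = S.g v.1 x}
  have hZ : ∀ v, IsClosed (Z v) := fun v => isClosed_eq (S.hg v.1) continuous_const
  have hne : (K ∩ ⋂ v, Z v).Nonempty := by
    apply hK.inter_iInter_nonempty Z hZ
    intro t
    have hdir : Directed (· ⊆ ·) (fun η : Iio ξ => d η.1) := by
      intro a b
      exact ⟨max a b, hm (le_max_left a b), hm (le_max_right a b)⟩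
    obtain ⟨η, hη⟩ := FinCl.finset_subset_directed hdir
      (t.image fun v => (Sum.inr v.1 : X ⊕ S.𝕍)) (by
        intro a ha
        rw [Finset.mem_coe, Finset.mem_image] at ha
        obtain ⟨v, _, rfl⟩ := ha
        rw [← S.Nl_eq d hd hm hξ]
        exact v.2)
    refine ⟨r (hd η.1) x, ⟨?_, hcon η.1 η.2⟩, ?_⟩
    · exact closure_mono (S.D_mono (S.sub_Nl d η.2)) (r_mem (hd η.1) x)
    · simp only [mem_iInter]
      intro v hv
      apply g_r
      apply hη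
      rw [Finset.mem_coe, Finset.mem_image]
      exact ⟨v, hv, rfl⟩
  obtain ⟨z, ⟨hz1, hz2⟩, hz3⟩ := hne
  apply hz2
  have : z = r (S.cl_Nl d ξ) x := r_unique _ hz1 fun v hv => mem_iInter.mp hz3 ⟨v, hv⟩
  rw [this]
  exact hx

/-- birth of a member of the cover -/
def Born (ξ : κ) (v : S.𝕍) : Prop := Sum.inr v ∈ d ξ ∧ ∀ η < ξ, Sum.inr v ∉ d η

theorem Born.unique {ξ ξ' : κ} {v : S.𝕍} (h : S.Born d ξ v) (h' : S.Born d ξ' v) : ξ = ξ' := by
  rcases lt_trichotomy ξ ξ' with hlt | heq | hgt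
  · exact absurd h.1 (h'.2 _ hlt)
  · exact heq
  · exact absurd h'.1 (h.2 _ hgt)

variable (e : S.𝕍 → X × X → ℝ)

/-- reachability -/
def Reach (hd : ∀ η, S.Cl (d η)) : ℕ → κ → X → κ → Prop
  | 0, η, _, ξ => η = ξ
  | k + 1, η, x, ξ => ∃ ξ' u, S.Born d ξ' u ∧ e u (r (hd η) x, x) ≠ 0 ∧ Reach hd k ξ' x ξ

theorem Reach.snoc (hd : ∀ η, S.Cl (d η)) {k : ℕ} {η ξ' ξ : κ} {x : X}
    (h : S.Reach d e hd k η x ξ') {u : S.𝕍} (hu : S.Born d ξ u)
    (hu2 : e u (r (hd ξ') x, x) ≠ 0) : S.Reach d e hd (k + 1) η x ξ := by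
  induction k generalizing η with
  | zero =>
    have : η = ξ' := h
    subst this
    exact ⟨ξ, u, hu, hu2, rfl⟩
  | succ k ih =>
    obtain ⟨ξ'', u'', h1, h2, h3⟩ := h
    exact ⟨ξ'', u'', h1, h2, ih h3⟩

theorem exists_reach (hVe : ∀ v p, p ∈ S.V v ↔ e v p ≠ 0) (hd : ∀ η, S.Cl (d η))
    (hm : Monotone d) (x : X) (ξ : κ) (h : ξ = ⊥ ∨ r (S.cl_Nl d ξ) x ≠ r (hd ξ) x) :
    ∃ k, S.Reach d e hd k ⊥ x ξ := by
  induction ξ using WellFoundedLT.induction with
  | ind ξ ih =>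
  by_cases hξ : ξ = ⊥
  · exact ⟨0, hξ.symm⟩
  have hne : r (S.cl_Nl d ξ) x ≠ r (hd ξ) x := h.resolve_left hξ
  obtain ⟨v, hv⟩ := S.cover _ _ hne
  have hsub := S.Nl_sub d hd hm ξ
  have ha : r (S.cl_Nl d ξ) x ∈ closure (S.D (d ξ)) :=
    closure_mono (S.D_mono hsub) (r_mem _ x)
  have hvd : Sum.inr v ∈ d ξ := (hd ξ).mem_V_closure ha (r_mem _ x) hv
  have hborn : S.Born d ξ v := by
    refine ⟨hvd, fun η hη hcon => ?_⟩
    have h1 := g_r (S.cl_Nl d ξ) x (S.sub_Nl d hη hcon)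
    have h2 := g_r (hd ξ) x hvd
    rw [S.g0 _ _ _ hv] at h1
    rw [S.g1 _ _ _ hv] at h2
    rw [← h2] at h1
    exact zero_ne_one h1
  have hax : (r (S.cl_Nl d ξ) x, x) ∈ S.V v := by
    apply V_of_r (hd ξ) hvd
    rw [r_fix (hd ξ) ha]
    exact hv
  have hO : IsOpen {y | (y, x) ∈ S.V v} :=
    (S.hV v).preimage (Continuous.prodMk continuous_id continuous_const)
  obtain ⟨η0, hη0, hη0'⟩ := S.cont d hd hm hξ x hO hax
  obtain ⟨η, ⟨hη, hη'⟩, hmin⟩ := WellFounded.has_min (wellFounded_lt (α := κ))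
    {η | η < ξ ∧ (r (hd η) x, x) ∈ S.V v} ⟨η0, hη0, hη0'⟩
  have hmove : η = ⊥ ∨ r (S.cl_Nl d η) x ≠ r (hd η) x := by
    by_cases hb : η = ⊥
    · exact Or.inl hb
    · right
      intro heq
      have : r (S.cl_Nl d η) x ∈ {y | (y, x) ∈ S.V v} := by
        rw [heq]; exact hη'
      obtain ⟨η', h1, h2⟩ := S.cont d hd hm hb x hO this
      exact hmin η' ⟨h1.trans hη, h2⟩ h1
  obtain ⟨k, hk⟩ := ih η hη hmove
  exact ⟨k + 1, Reach.snoc S d e hd hk hborn ((hVe v _).mp hη')⟩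

/-- the auxiliary families -/
def A (hd : ∀ η, S.Cl (d η)) (𝕎 : κ → Type u) (fW : ∀ η, 𝕎 η → X → ℝ) (k : ℕ) (η : κ) : Prop :=
  ∃ (J : Type u) (f : J → X → ℝ) (code : J → List S.𝕍) (tag : J → ℕ),
    (∀ j, Continuous (f j)) ∧
    (∀ x ξ, S.Reach d e hd k η x ξ → ∃ φ : X → ℝ, φ x ≠ 0 ∧ (∃ j, f j = φ) ∧
      ∀ W : 𝕎 ξ, ∃ j, f j = fun y => φ y * fW ξ W y) ∧
    ∀ x n m, S.Big n {s | {j | tag j = m ∧ S.Mt (code j) s ∧ f j x ≠ 0}.Finite}

theorem A_all (he : ∀ v, Continuous (e v)) (hVe : ∀ v p, p ∈ S.V v ↔ e v p ≠ 0)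
    (hd : ∀ η, S.Cl (d η)) (𝕎 : κ → Type u)
    (fW : ∀ η, 𝕎 η → X → ℝ) (code : ∀ η, 𝕎 η → List S.𝕍) (tag : ∀ η, 𝕎 η → ℕ)
    (hf : ∀ η W, Continuous (fW η W))
    (hB : ∀ η x k m, S.Big k {s | {W | tag η W = m ∧ S.Mt (code η W) s ∧ fW η W x ≠ 0}.Finite})
    (k : ℕ) (η : κ) : S.A d e hd 𝕎 fW k η := by
  classical
  induction k generalizing η with
  | zero =>
    refine ⟨Option (𝕎 η), fun j => j.elim (fun _ => 1) (fW η), fun j => j.elim [] (code η),
      fun j => j.elim 0 (fun W => tag η W + 1), ?_, ?_, ?_⟩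
    · rintro (_ | W)
      · exact continuous_const
      · exact hf η W
    · rintro x ξ h
      have : η = ξ := h
      subst this
      refine ⟨fun _ => 1, one_ne_zero, ⟨none, rfl⟩, fun W => ⟨some W, ?_⟩⟩
      funext y
      simp
    · intro x n m
      rcases m with _ | m
      · apply Big.all
        intro s
        apply Set.Subsingleton.finite
        rintro (_ | a) ⟨ha, -⟩ (_ | b) ⟨hb, -⟩
        · rfl
        · simp at hb
        · simp at ha
        · simp at ha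
      · refine Big.mono S (hB η x n m) fun s hs => ?_
        refine (Set.Finite.image some hs).subset ?_
        rintro (_ | a) ⟨h1, h2, h3⟩
        · simp at h1
        · refine ⟨a, ⟨?_, h2, h3⟩, rfl⟩
          simpa using h1
  | succ k ih =>
    choose J f cd tg h1 h2 h3 using ih
    refine ⟨Σ p : κ × S.𝕍, J p.1,
      fun j => if S.Born d j.1.1 j.1.2 then fun x => e j.1.2 (r (hd η) x, x) * f j.1.1 j.2 x
        else fun _ => 0,
      fun j => j.1.2 :: cd j.1.1 j.2, fun j => tg j.1.1 j.2, ?_, ?_, ?_⟩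
    · rintro ⟨⟨ξ', u⟩, j⟩
      simp only
      split_ifs
      · exact ((he u).comp ((continuous_r (hd η)).prodMk continuous_id)).mul (h1 ξ' j)
      · exact continuous_const
    · rintro x ξ ⟨ξ', u, hb, hu, hr⟩
      obtain ⟨φ, hφ, ⟨j0, hj0⟩, hφ2⟩ := h2 ξ' x ξ hr
      refine ⟨fun x => e u (r (hd η) x, x) * φ x, mul_ne_zero hu hφ,
        ⟨⟨(ξ', u), j0⟩, ?_⟩, fun W => ?_⟩
      · simp only
        rw [if_pos hb, hj0]
      · obtain ⟨j, hj⟩ := hφ2 W
        refine ⟨⟨(ξ', u), j⟩, ?_⟩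
        simp only
        rw [if_pos hb, hj]
        funext y
        ring
    · intro x n m
      rcases n with _ | n
      · change Set.Finite _
        refine Set.finite_empty.subset ?_
        rintro ⟨i, E⟩ ⟨-, hb, -⟩
        simp only at hb
        cases hb
      · refine ⟨{(r (hd η) x, x)}, fun i hi => ?_⟩
        have hBf := hi _ (Finset.mem_singleton_self _)
        have key : ∀ w ∈ {w | i ∈ S.H w ∧ (r (hd η) x, x) ∈ S.V w}, S.Big n {s |
            {j : Σ p : κ × S.𝕍, J p.1 | j.1.2 = w ∧ S.Born d j.1.1 j.1.2 ∧ tg j.1.1 j.2 = m ∧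
              S.Mt (cd j.1.1 j.2) s ∧ f j.1.1 j.2 x ≠ 0}.Finite} := by
          intro w _
          by_cases hw : ∃ ξ, S.Born d ξ w
          · obtain ⟨ξ, hξ⟩ := hw
            refine Big.mono S (h3 ξ x n m) fun s hs => ?_
            refine (Set.Finite.image (fun j => (⟨(ξ, w), j⟩ : Σ p : κ × S.𝕍, J p.1)) hs).subset ?_
            rintro ⟨⟨ξ', u⟩, j⟩ ⟨ha, hb, hc, hd', he'⟩
            simp only at ha hb hc hd' he'
            subst ha
            have := Born.unique S d hb hξ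
            subst this
            exact ⟨j, ⟨hc, hd', he'⟩, rfl⟩
          · apply Big.all
            intro s
            refine Set.finite_empty.subset ?_
            rintro ⟨⟨ξ', u⟩, j⟩ ⟨ha, hb, -⟩
            simp only at ha hb
            subst ha
            exact (hw ⟨ξ', hb⟩).elim
        refine Big.mono S (Big.biInter S hBf key) fun s hs => ?_
        have hfin := Set.Finite.biUnion hBf hs
        refine hfin.subset ?_
        rintro ⟨⟨ξ', u⟩, j⟩ ⟨ha, hb, hc⟩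
        simp only at ha hb hc
        rw [Mt, List.forall₂_cons] at hb
        have hborn : S.Born d ξ' u := by
          by_contra hcon
          rw [if_neg hcon] at hc
          exact hc rfl
        rw [if_pos hborn] at hc
        simp only [mem_iUnion]
        exact ⟨u, ⟨hb.1, (hVe u _).mpr (left_ne_zero_of_mul hc)⟩, rfl, hborn, ha, hb.2,
          right_ne_zero_of_mul hc⟩

theorem S2_chain' (he : ∀ v, Continuous (e v)) (hVe : ∀ v p, p ∈ S.V v ↔ e v p ≠ 0)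
    (hd : ∀ η, S.Cl (d η)) (hm : Monotone d) (h : ∀ i, S.S2 (d i)) : S.S2 (⋃ i, d i) := by
  classical
  choose 𝕎 fW code tag h1 h2 h3 using h
  have hA := S.A_all d e he hVe hd 𝕎 fW code tag h1 h3
  choose J f cd tg a1 a2 a3 using hA
  refine ⟨ULift.{u} (Σ k : ℕ, J k ⊥), fun j => f j.down.1 ⊥ j.down.2,
    fun j => cd j.down.1 ⊥ j.down.2, fun j => Nat.pair j.down.1 (tg j.down.1 ⊥ j.down.2),
    fun j => a1 _ _ _, ?_, ?_⟩
  · rintro x y ⟨v, hv, hv2⟩
    obtain ⟨i0, hi0⟩ := mem_iUnion.mp hv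
    obtain ⟨ξ, ⟨w, hw, hw2⟩, hmin⟩ := WellFounded.has_min (wellFounded_lt (α := κ))
      {i | ∃ v, Sum.inr v ∈ d i ∧ S.g v x ≠ S.g v y} ⟨i0, v, hi0, hv2⟩
    have hsep : ∃ z, (z = x ∨ z = y) ∧ (ξ = ⊥ ∨ r (S.cl_Nl d ξ) z ≠ r (hd ξ) z) := by
      by_cases hξ : ξ = ⊥
      · exact ⟨x, Or.inl rfl, Or.inl hξ⟩
      have e1 : r (S.cl_Nl d ξ) x = r (S.cl_Nl d ξ) y := by
        rw [r_eq_iff]
        intro v hv
        rw [S.Nl_eq d hd hm hξ] at hv
        obtain ⟨η, hη⟩ := mem_iUnion.mp hv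
        by_contra hcon
        exact hmin η.1 ⟨v, hη, hcon⟩ η.2
      have e2 : r (hd ξ) x ≠ r (hd ξ) y := by
        intro heq
        rw [r_eq_iff] at heq
        exact hw2 (heq w hw)
      by_contra hcon
      push Not at hcon
      have c1 := (hcon x (Or.inl rfl)).2
      have c2 := (hcon y (Or.inr rfl)).2
      exact e2 (c1.symm.trans (e1.trans c2))
    obtain ⟨z, hz, hz2⟩ := hsep
    obtain ⟨k, hk⟩ := S.exists_reach d e hVe hd hm z ξ hz2
    obtain ⟨φ, hφ, ⟨j0, hj0⟩, hφ2⟩ := a2 k ⊥ z ξ hk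
    by_cases hxy : φ x = φ y
    · obtain ⟨W, hW⟩ := h2 ξ x y ⟨w, hw, hw2⟩
      obtain ⟨j, hj⟩ := hφ2 W
      refine ⟨⟨⟨k, j⟩⟩, ?_⟩
      simp only
      rw [hj]
      simp only
      have hx0 : φ x ≠ 0 := by
        rcases hz with rfl | rfl
        · exact hφ
        · rw [hxy]; exact hφ
      intro hcon
      rw [← hxy] at hcon
      exact hW (mul_left_cancel₀ hx0 hcon)
    · refine ⟨⟨⟨k, j0⟩⟩, ?_⟩
      simp only
      rw [hj0]
      exact hxy
  · intro x n m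
    refine Big.mono S (a3 (Nat.unpair m).1 ⊥ x n (Nat.unpair m).2) fun s hs => ?_
    refine (Set.Finite.image (fun j => (⟨⟨(Nat.unpair m).1, j⟩⟩ : ULift.{u} (Σ k : ℕ, J k ⊥)))
      hs).subset ?_
    rintro ⟨⟨k, j⟩⟩ ⟨ha, hb, hc⟩
    simp only at ha hb hc
    have hk : (Nat.unpair m).1 = k := by rw [← ha, Nat.unpair_pair]
    have ht : (Nat.unpair m).2 = tg k ⊥ j := by rw [← ha, Nat.unpair_pair]
    subst hk
    exact ⟨j, ⟨ht.symm, hb, hc⟩, rfl⟩

end Chain

theorem S2_chain (e : S.𝕍 → X × X → ℝ) (he : ∀ v, Continuous (e v))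
    (hVe : ∀ v p, p ∈ S.V v ↔ e v p ≠ 0) (ι : Type u) [LinearOrder ι] [WellFoundedLT ι]
    (c : ι → Set (X ⊕ S.𝕍)) (hne : Nonempty ι)
    (hc : ∀ i, S.Cl (c i)) (hm : Monotone c) (h : ∀ i, S.S2 (c i)) : S.S2 (⋃ i, c i) := by
  let d : WithBot ι → Set (X ⊕ S.𝕍) := fun i => i.recBotCoe (FinCl.cls S.op ∅) c
  have hbc : ∀ i, FinCl.cls S.op ∅ ⊆ c i := fun i => FinCl.cls_subset _ (empty_subset _) (hc i)
  have hU : ⋃ i, d i = ⋃ i, c i := by
    apply Subset.antisymm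
    · apply iUnion_subset
      intro i
      induction i using WithBot.recBotCoe with
      | bot => exact (hbc (Classical.arbitrary ι)).trans (subset_iUnion c _)
      | coe i => exact subset_iUnion c i
    · apply iUnion_subset
      intro i
      exact subset_iUnion d (i : WithBot ι)
  have hbcount : (FinCl.cls S.op (∅ : Set (X ⊕ S.𝕍))).Countable := by
    rw [← Cardinal.le_aleph0_iff_set_countable]
    refine (FinCl.mk_cls_le S.op S.op_countable ∅).trans ?_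
    simp
  rw [← hU]
  apply S.S2_chain' d e he hVe
  · intro i
    induction i using WithBot.recBotCoe with
    | bot => exact FinCl.cl_cls _ _
    | coe i => exact hc i
  · intro i j hij
    induction i using WithBot.recBotCoe with
    | bot =>
      induction j using WithBot.recBotCoe with
      | bot => exact Subset.refl _
      | coe j => exact hbc j
    | coe i =>
      induction j using WithBot.recBotCoe with
      | bot => exact absurd hij (by simp)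
      | coe j => exact hm (WithBot.coe_le_coe.mp hij)
  · intro i
    induction i using WithBot.recBotCoe with
    | bot => exact S.S2_countable _ hbcount
    | coe i => exact h i

theorem S2_all (e : S.𝕍 → X × X → ℝ) (he : ∀ v, Continuous (e v))
    (hVe : ∀ v p, p ∈ S.V v ↔ e v p ≠ 0) (N : Set (X ⊕ S.𝕍)) (hN : S.Cl N) : S.S2 N :=
  FinCl.closed_induction S.op S.op_countable S.S2 (fun N _ h2 => S.S2_countable N h2)
    (fun ι _ _ c hne hc hm h => S.S2_chain e he hVe ι c hne hc hm h) N hN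

include S in
/-- The main structure theorem. -/
theorem exists_family : ∃ (𝕎 : Type u) (f : 𝕎 → X → ℝ) (K : Type) (_ : Countable K)
    (Hf : 𝕎 → Set K), (∀ W, Continuous (f W)) ∧ (∀ x y, x ≠ y → ∃ W, f W x ≠ f W y) ∧
    ∀ W, ∀ P : Finset X, ∃ κ ∈ Hf W, ∀ x ∈ P, {W' | κ ∈ Hf W' ∧ f W' x ≠ 0}.Finite := by
  obtain ⟨S', e, he, hVe⟩ := S.exists_coz
  obtain ⟨𝕎, f, code, tag, h1, h2, h3⟩ := S'.S2_all e he hVe univ S'.cl_univ
  have hcI := S'.cI
  refine ⟨𝕎, f, ℕ × List S'.I, inferInstance, fun W => {x | tag W = x.1 ∧ S'.Mt (code W) x.2},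
    h1, fun x y hxy => ?_, fun W P => ?_⟩
  · obtain ⟨v, hv⟩ := S'.cover x y hxy
    apply h2
    refine ⟨v, mem_univ _, ?_⟩
    rw [S'.g0 _ _ _ hv, S'.g1 _ _ _ hv]
    exact zero_ne_one
  · have hb : S'.Big (code W).length {s | ∀ x ∈ (P : Set X), s ∈
        {s | {W' | tag W' = tag W ∧ S'.Mt (code W') s ∧ f W' x ≠ 0}.Finite}} :=
      Big.biInter S' P.finite_toSet fun x _ => h3 x _ (tag W)
    obtain ⟨s, hs, hs2⟩ := Big.exists S' hb (code W) rfl
    refine ⟨(tag W, s), ⟨rfl, hs2⟩, fun x hx => ?_⟩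
    refine (hs x hx).subset ?_
    rintro w ⟨⟨ha, hb⟩, hc⟩
    exact ⟨ha, hb, hc⟩

end Sys

end Pool.Agent.H902R2.Sys
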