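import Mathlib
import Pool.Agent.H902R2.Sys
import Pool.Agent.H902R2.Step2
import Pool.Agent.H902R2.Wsm

set_option autoImplicit false
set_option linter.dupNamespace false
set_option linter.unusedSectionVars false

/-!
# The initial system
-/

open Set Topology

namespace Pool.Agent.H902R2.Init

open Pool.Agent.H902R2.Sys Pool.Agent.H902R2.Wsm

universe u

variable {X : Type u} [TopologicalSpace X] [CompactSpace X] [T2Space X]

theorem exists_sys (h : WeaklySigmaMetacompact {p : X × X // p.1 ≠ p.2}) :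
    Nonempty (Sys X) := by
  classical
  let Y := {p : X × X // p.1 ≠ p.2}
  have hYo : IsOpen {p : X × X | p.1 ≠ p.2} := isOpen_ne_fun continuous_fst continuous_snd
  obtain ⟨𝒱, hVo, hVc, hVr, F, hF, hF2⟩ := h
    {U | ∃ P Q : Set X, IsOpen P ∧ IsOpen Q ∧ Disjoint (closure P) (closure Q) ∧
      U = (Subtype.val : Y → X × X) ⁻¹' (P ×ˢ Q)} (by
      rintro U ⟨P, Q, hP, hQ, -, rfl⟩
      exact (hP.prod hQ).preimage continuous_subtype_val) (by
      rw [eq_univ_iff_forall]
      rintro ⟨⟨x, y⟩, hxy⟩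
      obtain ⟨P, hxP, hP, Q, hyQ, hQ, hd⟩ := exists_open_nhds_disjoint_closure hxy
      exact ⟨_, ⟨P, Q, hP, hQ, hd, rfl⟩, hxP, hyQ⟩)
  have hg : ∀ V : 𝒱, ∃ g : X → ℝ, Continuous g ∧ ∀ x y : X, (x, y) ∈ Subtype.val '' V.1 →
      g x = 0 ∧ g y = 1 := by
    intro V
    obtain ⟨U, ⟨P, Q, hP, hQ, hd, rfl⟩, hVU⟩ := hVr V.1 V.2
    obtain ⟨f, hf0, hf1, -⟩ := exists_continuous_zero_one_of_isClosed isClosed_closure
      isClosed_closure hd
    refine ⟨f, f.continuous, ?_⟩
    rintro x y ⟨p, hp, hp2⟩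
    have h1 := hVU hp
    have h2 : (x, y) ∈ P ×ˢ Q := by rw [← hp2]; exact h1
    exact ⟨hf0 (subset_closure h2.1), hf1 (subset_closure h2.2)⟩
  choose g hgc hg01 using hg
  exact ⟨
    { 𝕍 := 𝒱
      I := Finset ℕ
      cI := inferInstance
      V := fun V => Subtype.val '' V.1
      hV := fun V => (hYo.isOpenMap_subtype_val) V.1 (hVo V.1 V.2)
      g := g
      hg := hgc
      g0 := fun V x y h => (hg01 V x y h).1
      g1 := fun V x y h => (hg01 V x y h).2
      cover := fun x y hxy => by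
        have h1 : (⟨(x, y), hxy⟩ : Y) ∈ ⋃₀ 𝒱 := by rw [hVc]; trivial
        obtain ⟨V, hV, hV2⟩ := h1
        exact ⟨⟨V, hV⟩, ⟨(x, y), hxy⟩, hV2, rfl⟩
      H := fun V => {i | ∀ n ∈ i, V.1 ∈ F n}
      wpf := fun V P => by
        have hsel : ∀ p : Y, ∃ n, V.1 ∈ F n ∧ {s | s ∈ F n ∧ p ∈ s}.Finite := by
          intro p
          have h1 := (Set.ext_iff.mp (hF2 p) V.1).mp V.2
          simp only [mem_iUnion] at h1
          obtain ⟨n, hn, hn2⟩ := h1
          exact ⟨n, hn2, hn⟩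
        choose n hn hn2 using hsel
        refine ⟨(P.filter (fun p => p.1 ≠ p.2)).attach.image (fun p =>
          n ⟨p.1, by
            have h1 := (Finset.mem_filter.mp p.2).2
            exact h1⟩), ?_, ?_⟩
        · intro m hm
          obtain ⟨p, -, rfl⟩ := Finset.mem_image.mp hm
          exact hn _
        · intro p hp
          by_cases hpd : p.1 = p.2
          · refine Set.finite_empty.subset ?_
            rintro W ⟨-, ⟨q, hq, hq2⟩⟩
            exact q.2 (by rw [hq2]; exact hpd)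
          · have hpf : p ∈ P.filter (fun p => p.1 ≠ p.2) := Finset.mem_filter.mpr ⟨hp, hpd⟩
            refine (Set.Finite.preimage (Subtype.val_injective.injOn) (hn2 ⟨p, hpd⟩)).subset ?_
            rintro W ⟨hW, ⟨q, hq, hq2⟩⟩
            refine ⟨hW _ (Finset.mem_image.mpr ⟨⟨p, hpf⟩, Finset.mem_attach _ _, rfl⟩), ?_⟩
            have : (⟨p, hpd⟩ : Y) = q := Subtype.ext hq2.symm
            rw [this]
            exact hq }⟩

/-- The main structure theorem. -/
theorem exists_family (h : WeaklySigmaMetacompact {p : X × X // p.1 ≠ p.2}) :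
    ∃ (𝕎 : Type u) (f : 𝕎 → X → ℝ) (K : Type) (_ : Countable K)
      (Hf : 𝕎 → Set K), (∀ W, Continuous (f W)) ∧ (∀ x y, x ≠ y → ∃ W, f W x ≠ f W y) ∧
      ∀ W, ∀ P : Finset X, ∃ κ ∈ Hf W, ∀ x ∈ P, {W' | κ ∈ Hf W' ∧ f W' x ≠ 0}.Finite := by
  obtain ⟨S⟩ := exists_sys h
  exact S.exists_family

end Pool.Agent.H902R2.Init
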