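import Mathlib

set_option autoImplicit false
set_option linter.unusedSectionVars false

/-!
# Compact sets and countable covers by locally closed sets
-/

open Set Topology

namespace Pool.Agent.H902R2.PerfWtr

universe u v w

/-- A nonempty compact set covered by the sets `G j ∖ G' j` has a finite cover by sets `G j` such
that the corresponding sets `G' j` do not cover it. -/
theorem exists_violation {X : Type u} [TopologicalSpace X] {J : Type w} (G G' : J → Set X)
    (hG : ∀ j, IsOpen (G j)) (hGG : ∀ j, G' j ⊆ G j) (F : Set X) (hF : IsCompact F)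
    (hne : F.Nonempty) (hcov : ∀ x ∈ F, ∃ j, x ∈ G j ∧ x ∉ G' j) :
    ∃ M : Finset J, F ⊆ (⋃ j ∈ M, G j) ∧ ¬ F ⊆ ⋃ j ∈ M, G' j := by
  classical
  by_contra hcon
  push Not at hcon
  -- maximal families without finite subcover
  obtain ⟨T, hT⟩ := zorn_subset {T : Set J | ∀ T' : Finset J, (T' : Set J) ⊆ T →
      ¬ F ⊆ ⋃ j ∈ T', G j} (by
    intro c hc hchain
    rcases c.eq_empty_or_nonempty with rfl | hcne
    · refine ⟨∅, ?_, by simp⟩
      intro T' hT' hsub
      have : T' = ∅ := by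
        rw [← Finset.coe_eq_empty]
        exact subset_empty_iff.mp hT'
      subst this
      simp only [Finset.notMem_empty, iUnion_of_empty, iUnion_empty] at hsub
      exact hne.ne_empty (subset_empty_iff.mp hsub)
    · refine ⟨⋃₀ c, ?_, fun s hs => subset_sUnion_of_mem hs⟩
      intro T' hT'
      have hdir : DirectedOn (· ⊆ ·) c := hchain.directedOn
      obtain ⟨s, hs, hs2⟩ : ∃ s ∈ c, (T' : Set J) ⊆ s := by
        refine DirectedOn.exists_mem_subset_of_finset_subset_biUnion hcne hdir ?_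
        rwa [← sUnion_eq_biUnion]
      exact hc hs T' hs2)
  have hTp := hT.prop
  -- a point outside
  obtain ⟨x, hxF, hx⟩ : ∃ x ∈ F, ∀ j ∈ T, x ∉ G j := by
    by_contra h
    push Not at h
    obtain ⟨t, ht⟩ := hF.elim_finite_subcover (fun j : T => G j) (fun j => hG j) (by
      intro x hx
      obtain ⟨j, hj, hxj⟩ := h x hx
      exact mem_iUnion.mpr ⟨⟨j, hj⟩, hxj⟩)
    refine hTp (t.image Subtype.val) ?_ ?_
    · intro j hj
      rw [Finset.mem_coe, Finset.mem_image] at hj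
      obtain ⟨j', _, rfl⟩ := hj
      exact j'.2
    · intro x hx
      obtain ⟨j, hj, hxj⟩ := mem_iUnion₂.mp (ht hx)
      exact mem_iUnion₂.mpr ⟨j, Finset.mem_image_of_mem _ hj, hxj⟩
  obtain ⟨m, hm, hm'⟩ := hcov x hxF
  have hmT : m ∉ T := fun h => hx m h hm
  have hnot : ¬ (∀ T' : Finset J, (T' : Set J) ⊆ insert m T → ¬ F ⊆ ⋃ j ∈ T', G j) := by
    intro h
    exact hmT (hT.2 (y := insert m T) h (subset_insert m T) (mem_insert m T))
  push Not at hnot
  obtain ⟨T', hT', hFT⟩ := hnot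
  have h1 := hcon T' hFT hxF
  obtain ⟨j, hj, hxj⟩ := mem_iUnion₂.mp h1
  rcases hT' hj with rfl | h2
  · exact hm' hxj
  · exact hx j h2 (hGG j hxj)

/-- The open set attached to two finite sets of indices. -/
def Op {X : Type u} {J : Type w} (G G' : J → Set X) (A B : Finset J) : Set X :=
  (⋃ j ∈ A, G j) ∪ ⋃ j ∈ B, G' j

theorem exists_triple {X : Type u} {J : Type w} [DecidableEq J] (G G' : J → Set X) (F : Set X) (M : Finset J) :
    ∀ B : Finset J, F ⊆ Op G G' M B → ¬ F ⊆ Op G G' ∅ (B ∪ M) →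
      ∃ (A B' : Finset J) (j : J), F ⊆ Op G G' A B' ∪ G j ∧ ¬ F ⊆ Op G G' A B' ∪ G' j := by
  induction M using Finset.induction_on with
  | empty =>
    intro B h1 h2
    rw [Finset.union_empty] at h2
    exact absurd h1 h2
  | insert j M _ ih =>
    intro B h1 h2
    by_cases h3 : F ⊆ Op G G' M B ∪ G' j
    · apply ih (insert j B)
      · refine h3.trans ?_
        intro x hx
        simp only [Op, mem_union, mem_iUnion, Finset.mem_insert, exists_prop] at hx ⊢
        rcases hx with (hx | ⟨i, hi, hx⟩) | hx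
        · exact Or.inl hx
        · exact Or.inr ⟨i, Or.inr hi, hx⟩
        · exact Or.inr ⟨j, Or.inl rfl, hx⟩
      · convert h2 using 3
        ext i
        simp only [Finset.mem_union, Finset.mem_insert]
        tauto
    · refine ⟨M, B, j, ?_, h3⟩
      refine h1.trans ?_
      intro x hx
      simp only [Op, mem_union, mem_iUnion, Finset.mem_insert, exists_prop] at hx ⊢
      rcases hx with ⟨i, rfl | hi, hx⟩ | hx
      · exact Or.inr hx
      · exact Or.inl (Or.inl ⟨i, hi, hx⟩)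
      · exact Or.inl (Or.inr hx)

variable {X : Type u} {Y : Type v} [TopologicalSpace X] [TopologicalSpace Y]

theorem isOpen_star {f : X → Y} (hc : IsClosedMap f) {S : Set X} (hS : IsOpen S) :
    IsOpen {y | f ⁻¹' {y} ⊆ S} := by
  have : {y | f ⁻¹' {y} ⊆ S} = (f '' Sᶜ)ᶜ := by
    ext y
    simp only [mem_ofPred_eq, mem_compl_iff, mem_image, not_exists, not_and]
    constructor
    · intro h x hx hxy
      exact hx (h hxy)
    · intro h x hx
      by_contra hxS
      exact h x hxS hx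
  rw [this]
  exact (hc _ hS.isClosed_compl).isOpen_compl

/-- The main argument. -/
theorem main {J : Type w} [Countable J] (G G' : J → Set X) (hG : ∀ j, IsOpen (G j))
    (hG' : ∀ j, IsOpen (G' j)) (hGG : ∀ j, G' j ⊆ G j) (hcov : ∀ x, ∃ j, x ∈ G j ∧ x ∉ G' j)
    (I : J → Type u) (W : ∀ j, I j → Set X) (hW : ∀ j i, IsOpen (W j i))
    (hex : ∀ j x, x ∈ G j → x ∉ G' j → ∃ i, x ∈ W j i)
    (huniq : ∀ j x, x ∉ G' j → ∀ i i', x ∈ W j i → x ∈ W j i' → i = i')
    (f : X → Y) (hs : Function.Surjective f) (hc : IsClosedMap f)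
    (hk : ∀ y, IsCompact (f ⁻¹' {y})) (U : ∀ j, I j → Set Y) (hU : ∀ j i, IsOpen (U j i))
    (hWU : ∀ j i, W j i ⊆ f ⁻¹' (U j i)) :
    ∃ V : ℕ → Set (Set Y), (∀ n, ∀ v ∈ V n, IsOpen v ∧ ∃ j i, v ⊆ U j i) ∧
      ∀ y, ∃ n, {v | v ∈ V n ∧ y ∈ v}.Nonempty ∧ {v | v ∈ V n ∧ y ∈ v}.Finite := by
  classical
  let Op' := Op G G'
  have hOp : ∀ A B, IsOpen (Op' A B) := fun A B =>
    (isOpen_biUnion fun j _ => hG j).union (isOpen_biUnion fun j _ => hG' j)
  let N : Finset J → Finset J → ∀ j : J, Finset (I j) → Set Y := fun A B j s =>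
    {y | f ⁻¹' {y} ⊆ Op' A B ∪ G' j ∪ ⋃ i ∈ s, W j i}
  have hN : ∀ A B j s, IsOpen (N A B j s) := fun A B j s =>
    isOpen_star hc (((hOp A B).union (hG' j)).union (isOpen_biUnion fun i _ => hW j i))
  let fam : Finset J × Finset J × J × ℕ → Set (Set Y) := fun p =>
    {v | ∃ s : Finset (I p.2.2.1), s.card = p.2.2.2 ∧ ∃ h : s.Nonempty,
      v = N p.1 p.2.1 p.2.2.1 s ∩ U p.2.2.1 h.choose}
  obtain ⟨enc, henc⟩ := exists_injective_nat (Finset J × Finset J × J × ℕ)
  refine ⟨fun n => {v | ∃ p, enc p = n ∧ v ∈ fam p}, ?_, ?_⟩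
  · rintro n v ⟨p, -, s, -, h, rfl⟩
    exact ⟨(hN _ _ _ _).inter (hU _ _), _, _, inter_subset_right⟩
  intro y
  have hne : (f ⁻¹' {y}).Nonempty := by
    obtain ⟨x, hx⟩ := hs y
    exact ⟨x, hx⟩
  obtain ⟨M, hM, hM'⟩ := exists_violation G G' hG hGG (f ⁻¹' {y}) (hk y) hne fun x _ => hcov x
  obtain ⟨A, B, j, h1, h2⟩ := exists_triple G G' (f ⁻¹' {y}) M ∅ (by
      refine hM.trans ?_
      exact subset_union_left) (by
      intro h
      apply hM'
      refine h.trans ?_
      intro x hx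
      simpa [Op] using hx)
  -- the compact set
  let K : Set X := f ⁻¹' {y} \ (Op' A B ∪ G' j)
  have hK : IsCompact K := (hk y).diff ((hOp A B).union (hG' j))
  have hKne : K.Nonempty := by
    rw [not_subset] at h2
    obtain ⟨x, hx, hx2⟩ := h2
    exact ⟨x, hx, hx2⟩
  have hKG : ∀ x ∈ K, x ∈ G j ∧ x ∉ G' j := by
    rintro x ⟨hx, hx2⟩
    rw [mem_union, not_or] at hx2
    exact ⟨(h1 hx).resolve_left hx2.1, hx2.2⟩
  obtain ⟨t, ht⟩ := hK.elim_finite_subcover (W j) (hW j) fun x hx =>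
    mem_iUnion.mpr (hex j x (hKG x hx).1 (hKG x hx).2)
  let s : Finset (I j) := t.filter fun i => (K ∩ W j i).Nonempty
  have hs_mem : ∀ i, i ∈ s ↔ (K ∩ W j i).Nonempty := by
    intro i
    rw [Finset.mem_filter]
    constructor
    · exact fun h => h.2
    · intro h
      refine ⟨?_, h⟩
      obtain ⟨x, hxK, hxi⟩ := h
      obtain ⟨i', hi', hxi'⟩ := mem_iUnion₂.mp (ht hxK)
      rw [huniq j x (hKG x hxK).2 i i' hxi hxi']
      exact hi'
  have hyN : ∀ s' : Finset (I j), y ∈ N A B j s' ↔ s ⊆ s' := by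
    intro s'
    constructor
    · intro hy i hi
      obtain ⟨x, hxK, hxi⟩ := (hs_mem i).mp hi
      rcases hy hxK.1 with h | h
      · exact absurd h hxK.2
      · obtain ⟨i', hi', hxi'⟩ := mem_iUnion₂.mp h
        rw [huniq j x (hKG x hxK).2 i i' hxi hxi']
        exact hi'
    · intro hss x hx
      by_cases hxo : x ∈ Op' A B ∪ G' j
      · exact Or.inl hxo
      · right
        have hxK : x ∈ K := ⟨hx, hxo⟩
        obtain ⟨i, hi⟩ := hex j x (hKG x hxK).1 (hKG x hxK).2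
        exact mem_iUnion₂.mpr ⟨i, hss ((hs_mem i).mpr ⟨x, hxK, hi⟩), hi⟩
  have hsne : s.Nonempty := by
    obtain ⟨x, hxK⟩ := hKne
    obtain ⟨i, hi⟩ := hex j x (hKG x hxK).1 (hKG x hxK).2
    exact ⟨i, (hs_mem i).mpr ⟨x, hxK, hi⟩⟩
  have hyU : ∀ i ∈ s, y ∈ U j i := by
    intro i hi
    obtain ⟨x, hxK, hxi⟩ := (hs_mem i).mp hi
    have h3 : f x ∈ U j i := hWU j i hxi
    have h4 : f x = y := hxK.1
    rwa [h4] at h3
  refine ⟨enc (A, B, j, s.card), ?_, ?_⟩
  · exact ⟨_, ⟨_, rfl, s, rfl, hsne, rfl⟩, (hyN s).mpr (Finset.Subset.refl s),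
      hyU _ hsne.choose_spec⟩
  · refine (Set.finite_singleton (N A B j s ∩ U j hsne.choose)).subset ?_
    rintro v ⟨⟨p, hp, s', hs', h', rfl⟩, hyv⟩
    have hp' := henc hp
    subst hp'
    have h5 : s ⊆ s' := (hyN s').mp hyv.1
    have h6 : s = s' := Finset.eq_of_subset_of_card_le h5 hs'.le
    subst h6
    rfl

end Pool.Agent.H902R2.PerfWtr
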